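import Mathlib
import Pool.Agent.W569.FM.Stmts

/-!
# Project PT (MP_a3c811_ag): transfer of the weight-monodromy property and of local factors to places of
# bad reduction. Statements of the pieces.
-/

set_option autoImplicit false

namespace Pool.Agent.W2helper44.PT

open NumberField Filter Topology Polynomial Matrix
open Pool.Agent.W569.FM

/-- evaluation of polynomials with rational coefficients at a matrix -/
noncomputable def ev {k : Type} [Field k] [CharZero k] {n : ℕ} (γ : Matrix (Fin n) (Fin n) k) :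
    ℚ[X] →+* Matrix (Fin n) (Fin n) k :=
  ((aeval γ : k[X] →ₐ[k] Matrix (Fin n) (Fin n) k) : k[X] →+* Matrix (Fin n) (Fin n) k).comp
    (mapRingHom (Rat.castHom k))

/-- **BN**: if `N` is semisimple and `V`, `N` have the same traces, then a set of elements of the algebra
that kills no nonzero vector of `N` kills no nonzero vector of `V`. -/
def P_BN : Prop :=
  ∀ (k : Type) [Field k] [CharZero k] (A : Type) [Ring A] [Algebra k A]
    (V N : Type) [AddCommGroup V] [Module k V] [Module A V] [IsScalarTower k A V]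
    [FiniteDimensional k V] [AddCommGroup N] [Module k N] [Module A N] [IsScalarTower k A N]
    [FiniteDimensional k N], IsSemisimpleModule A N →
    (∀ a : A, LinearMap.trace k V (Algebra.lsmul k k V a) =
      LinearMap.trace k N (Algebra.lsmul k k N a)) →
    ∀ L : Set A, (∀ x : N, (∀ a ∈ L, a • x = 0) → x = 0) → ∀ x : V, (∀ a ∈ L, a • x = 0) → x = 0

/-- **CL** (Clifford): the restriction of a finite dimensional semisimple representation to a normal
subgroup is semisimple. -/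
def P_CL : Prop :=
  ∀ (k : Type) [Field k] (G : Type) [Group G] (U : Subgroup G) [U.Normal]
    (M : Type) [AddCommGroup M] [Module k M] [FiniteDimensional k M] (r : G →* Module.End k M),
    (∀ W : Submodule k M, (∀ g, ∀ x ∈ W, r g x ∈ W) →
      ∃ W' : Submodule k M, (∀ g, ∀ x ∈ W', r g x ∈ W') ∧ IsCompl W W') →
    (∀ W : Submodule k M, (∀ g ∈ U, ∀ x ∈ W, r g x ∈ W) →
      ∃ W' : Submodule k M, (∀ g ∈ U, ∀ x ∈ W', r g x ∈ W') ∧ IsCompl W W')

/-- **CYC**: the image of the inertia group in a pro-`ℓ` image is procyclic. -/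
def P_CYC : Prop :=
  ∀ (K : Type) [Field K] [NumberField K] (ℓ : ℕ) [Fact ℓ.Prime] (n : ℕ)
    (ρ : GF K →* Matrix (Fin n) (Fin n) ℚ_[ℓ]), Continuous ρ →
    ∀ H : Subgroup (GF K), H.Normal → IsOpen (H : Set (GF K)) →
    (∀ x ∈ H, Tendsto (fun j : ℕ => ρ x ^ (ℓ ^ j)) atTop (𝓝 1)) →
    ∀ P : Ideal (OO K), P.IsMaximal → (ℓ : OO K) ∉ P →
    ∃ τ₀ ∈ H, InInertia P τ₀ ∧ ∀ τ ∈ H, InInertia P τ →
      ρ τ ∈ closure (Set.range fun j : ℕ => ρ τ₀ ^ j)

/-- **LOG**: the logarithm of a unipotent matrix. -/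
def P_LOG : Prop :=
  ∀ (k : Type) [Field k] [CharZero k] (n : ℕ) (t : Matrix (Fin n) (Fin n) k), IsNilpotent (t - 1) →
    ∃ N u u' : Matrix (Fin n) (Fin n) k, N = (t - 1) * u ∧ u * u' = 1 ∧ u' * u = 1 ∧ Commute t u ∧
      ∀ (s s' : Matrix (Fin n) (Fin n) k) (Q : ℕ), s * s' = 1 → s' * s = 1 →
        s * t * s' = t ^ Q → s * N * s' = (Q : k) • N

/-- **TF**: the trace on the kernel of the monodromy operator. -/
def P_TF : Prop :=
  ∀ (k : Type) [Field k] [CharZero k] (n : ℕ) (γ N E : Matrix (Fin n) (Fin n) k) (Q : ℕ), 2 ≤ Q →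
    N * γ = (Q : k) • (γ * N) →
    ∀ (w : ℤ) (s : Finset ℤ) (h : ℤ → ℚ[X]),
    (∀ j, ∀ z : ℂ, aeval z (h j) = 0 → ‖z‖ ^ 2 = (Q : ℝ) ^ j) →
    ev γ (∏ j ∈ s, h j) = 0 →
    (∀ i : ℕ, Module.finrank k (LinearMap.ker (toLin' (ev γ (h (w + i))))) =
      Module.finrank k (LinearMap.ker (toLin' (ev γ (h (w - i)))))) →
    (∀ i : ℕ, ∀ x, ev γ (h (w + i)) *ᵥ x = 0 → N ^ i *ᵥ x = 0 → x = 0) →
    (∀ x, N *ᵥ (E *ᵥ x) = 0) → (∀ x, N *ᵥ x = 0 → E *ᵥ x = x) →
    ∀ pA pB : ℚ[X], (∀ j ∈ s, j ≤ w → h j ∣ pA - 1) → (∀ j ∈ s, w < j → h j ∣ pA) →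
      (∀ j ∈ s, j ≤ w - 2 → h j ∣ pB - 1) → (∀ j ∈ s, w - 2 < j → h j ∣ pB) →
    (γ * E).trace = (γ * ev γ pA).trace - (Q : k) * (γ * ev γ pB).trace

/-- **AVG**: averages over the cosets of two subgroups of finite index. -/
def P_AVG : Prop :=
  ∀ (I : Type) [Group I] (J₁ J₂ : Subgroup I) [J₁.FiniteIndex] [J₂.FiniteIndex] (c : I → ℚ),
    (∀ x, ∀ y ∈ J₁, c (x * y) = c x) → (∀ x, ∀ y ∈ J₂, c (x * y) = c x) →
    (Nat.card (I ⧸ J₁) : ℚ)⁻¹ * ∑ᶠ q : I ⧸ J₁, c q.out =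
      (Nat.card (I ⧸ J₂) : ℚ)⁻¹ * ∑ᶠ q : I ⧸ J₂, c q.out

end Pool.Agent.W2helper44.PT
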