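import Pool.Agent.R401.Tr10
import Pool.Agent.W2helper44.PT.Stm

/-!
# Project PT: the definition of a pure family at a place, and basic lemmas
-/

set_option autoImplicit false
set_option maxHeartbeats 400000

namespace Pool.Agent.W2helper44.PT

open NumberField Filter Topology Polynomial Matrix Module
open Pool.Agent.W569.FM Pool.Agent.R401.Img Pool.Agent.R401.Tr5 Pool.Agent.R401.Tr9

/-- the family `V` is pure of weight `w` at the ideal `P`, for a residue field with `q` elements -/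
def PU {K : Type} [Field K] {n : ℕ} (V : ∀ (ℓ : ℕ) [Fact ℓ.Prime], GF K →* GL (Fin n) ℚ_[ℓ])
    (w : ℤ) (q : ℕ) (P : Ideal (OO K)) : Prop :=
  (∀ (ℓ : ℕ) [Fact ℓ.Prime], (ℓ : OO K) ∉ P → ∃ H : Subgroup (GF K), IsOpen (H : Set (GF K)) ∧
    ∀ τ ∈ H, InInertia P τ → IsNilpotent (mt (V ℓ) τ - 1)) ∧
  (∀ j : ℕ, 1 ≤ j → ∀ g, FrobAt (q ^ j) P g → ∃ t : ℚ, ∀ (ℓ : ℕ) [Fact ℓ.Prime],
    (ℓ : OO K) ∉ P → (mt (V ℓ) g⁻¹).trace = (t : ℚ_[ℓ])) ∧
  (∀ j : ℕ, 1 ≤ j → ∀ g, FrobAt (q ^ j) P g → ∃ (s : Finset ℤ) (h : ℤ → ℚ[X]),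
    (∀ i, ∀ z : ℂ, aeval z (h i) = 0 → ‖z‖ ^ 2 = ((q ^ j : ℕ) : ℝ) ^ i) ∧
    ∀ (ℓ : ℕ) [Fact ℓ.Prime], (ℓ : OO K) ∉ P →
      ev (mt (V ℓ) g⁻¹) (∏ i ∈ s, h i) = 0 ∧
      (∀ i : ℕ, finrank ℚ_[ℓ] (LinearMap.ker (toLin' (ev (mt (V ℓ) g⁻¹) (h (w + i))))) =
        finrank ℚ_[ℓ] (LinearMap.ker (toLin' (ev (mt (V ℓ) g⁻¹) (h (w - i)))))) ∧
      ∀ H : Subgroup (GF K), IsOpen (H : Set (GF K)) → ∀ i : ℕ, ∃ τ ∈ H, InInertia P τ ∧
        ∀ x, ev (mt (V ℓ) g⁻¹) (h (w + i)) *ᵥ x = 0 → (mt (V ℓ) τ - 1) ^ i *ᵥ x = 0 → x = 0)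

section pol

variable {k : Type} [Field k] [CharZero k] {n : ℕ}

theorem ev_C (γ : Matrix (Fin n) (Fin n) k) (c : ℚ) : ev γ (C c) = (c : k) • 1 := by
  unfold ev
  rw [RingHom.comp_apply, coe_mapRingHom, map_C]
  change aeval γ (C ((Rat.castHom k) c)) = _
  rw [aeval_C, Algebra.algebraMap_eq_smul_one]
  rfl

theorem ev_X (γ : Matrix (Fin n) (Fin n) k) : ev γ X = γ := by
  unfold ev
  rw [RingHom.comp_apply, coe_mapRingHom, map_X]
  change aeval γ X = _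
  rw [aeval_X]

theorem ev_eq_sum (γ : Matrix (Fin n) (Fin n) k) (p : ℚ[X]) :
    ev γ p = p.sum fun i a => (a : k) • γ ^ i := by
  conv_lhs => rw [p.as_sum_support_C_mul_X_pow]
  rw [map_sum, Polynomial.sum_def]
  refine Finset.sum_congr rfl fun i _ => ?_
  rw [map_mul, map_pow, ev_X, ev_C, smul_mul_assoc, one_mul]

/-- the trace of `γ p(γ)` -/
noncomputable def trp (T : ℕ → ℚ) (p : ℚ[X]) : ℚ := p.sum fun i a => a * T i

theorem trace_ev (γ : Matrix (Fin n) (Fin n) k) (T : ℕ → ℚ)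
    (hT : ∀ i, (γ ^ (i + 1)).trace = (T i : k)) (p : ℚ[X]) :
    (γ * ev γ p).trace = (trp T p : k) := by
  rw [ev_eq_sum, trp, Polynomial.sum_def, Polynomial.sum_def, Finset.mul_sum, Matrix.trace_sum,
    Rat.cast_sum]
  refine Finset.sum_congr rfl fun i _ => ?_
  rw [mul_smul_comm, Matrix.trace_smul, ← pow_succ', hT, smul_eq_mul, Rat.cast_mul]

/-- coprime polynomials -/
theorem coprime_of_root {p q : ℚ[X]} (h : ∀ z : ℂ, aeval z p = 0 → aeval z q = 0 → False) :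
    IsCoprime p q := by
  rw [← EuclideanDomain.gcd_isUnit_iff]
  by_contra hcon
  obtain ⟨z, hz⟩ : ∃ z : ℂ, aeval z (EuclideanDomain.gcd p q) = 0 := by
    by_cases hd : EuclideanDomain.gcd p q = 0
    · exact ⟨0, by rw [hd, map_zero]⟩
    · refine IsAlgClosed.exists_aeval_eq_zero ℂ _ fun h0 => hcon ?_
      exact Polynomial.isUnit_iff_degree_eq_zero.2 h0
  refine h z ?_ ?_
  · obtain ⟨c, hc⟩ := EuclideanDomain.gcd_dvd_left p q
    rw [hc, map_mul, hz, zero_mul]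
  · obtain ⟨c, hc⟩ := EuclideanDomain.gcd_dvd_right p q
    rw [hc, map_mul, hz, zero_mul]

theorem coprime_of_weight {Q : ℕ} (hQ : 2 ≤ Q) {i j : ℤ} (hij : i ≠ j) {p q : ℚ[X]}
    (hp : ∀ z : ℂ, aeval z p = 0 → ‖z‖ ^ 2 = (Q : ℝ) ^ i)
    (hq : ∀ z : ℂ, aeval z q = 0 → ‖z‖ ^ 2 = (Q : ℝ) ^ j) : IsCoprime p q := by
  apply coprime_of_root
  intro z hz1 hz2
  have h1 := hp z hz1
  rw [hq z hz2] at h1
  have hQ0 : (1 : ℝ) < (Q : ℝ) := by
    have : 1 < Q := by omega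
    exact_mod_cast this
  exact hij (zpow_right_injective₀ (by linarith) (by linarith) h1).symm

/-- the Chinese remainder theorem -/
theorem crt {Q : ℕ} (hQ : 2 ≤ Q) (s : Finset ℤ) (h : ℤ → ℚ[X])
    (hh : ∀ j, ∀ z : ℂ, aeval z (h j) = 0 → ‖z‖ ^ 2 = (Q : ℝ) ^ j) (a : ℤ) :
    ∃ p : ℚ[X], (∀ j ∈ s, j ≤ a → h j ∣ p - 1) ∧ ∀ j ∈ s, a < j → h j ∣ p := by
  classical
  have h1 : IsCoprime (∏ j ∈ s.filter (· ≤ a), h j) (∏ j ∈ s.filter (a < ·), h j) := by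
    apply IsCoprime.prod_left
    intro i hi
    apply IsCoprime.prod_right
    intro j hj
    rw [Finset.mem_filter] at hi hj
    exact coprime_of_weight hQ (by
      have := hi.2
      have := hj.2
      omega) (hh i) (hh j)
  obtain ⟨x, y, hxy⟩ := h1
  refine ⟨y * ∏ j ∈ s.filter (a < ·), h j, ?_, ?_⟩
  · intro j hj hja
    have h2 : y * ∏ j ∈ s.filter (a < ·), h j - 1 = -(x * ∏ j ∈ s.filter (· ≤ a), h j) := by
      rw [← hxy]
      ring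
    rw [h2]
    exact (Dvd.dvd.mul_left (Finset.dvd_prod_of_mem h (Finset.mem_filter.2 ⟨hj, hja⟩)) x).neg_right
  · intro j hj hja
    exact Dvd.dvd.mul_left (Finset.dvd_prod_of_mem h (Finset.mem_filter.2 ⟨hj, hja⟩)) y

end pol

section frob

variable {K : Type} [Field K]

theorem frob_pow {q : ℕ} {P : Ideal (OO K)} {σ : GF K} (hσ : FrobAt q P σ) (k : ℕ) :
    FrobAt (q ^ k) P (σ ^ k) := by
  induction k with
  | zero =>
    intro x
    rw [pow_zero, pow_zero, pow_one, one_smul, sub_self]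
    exact P.zero_mem
  | succ k ih =>
    intro x
    have h2 : (σ ^ (k + 1)) • x - x ^ (q ^ (k + 1)) =
        ((σ ^ k) • (σ • x) - (σ • x) ^ (q ^ k)) + ((σ • x) ^ (q ^ k) - (x ^ q) ^ (q ^ k)) := by
      rw [pow_succ, pow_succ, mul_smul, mul_comm (q ^ k) q, pow_mul]
      abel
    rw [h2]
    refine P.add_mem (ih _) ?_
    obtain ⟨c, hc⟩ := sub_dvd_pow_sub_pow (σ • x) (x ^ q) (q ^ k)
    rw [hc]
    exact P.mul_mem_right _ (hσ x)

theorem frob_inertia {q : ℕ} {P : Ideal (OO K)} {σ τ : GF K} (hσ : FrobAt q P σ)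
    (hτ : InInertia P τ) : FrobAt q P (τ * σ) := by
  intro x
  have h2 : (τ * σ) • x - x ^ q = (τ • (σ • x) - σ • x) + (σ • x - x ^ q) := by
    rw [mul_smul]
    abel
  rw [h2]
  exact P.add_mem (hτ _) (hσ x)

end frob

end Pool.Agent.W2helper44.PT
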