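import Pool.Agent.W2helper44.PT.SSb

/-!
# Project PT: the local factors of two semisimple families
-/

set_option autoImplicit false
set_option maxHeartbeats 400000

namespace Pool.Agent.W2helper44.PT

open NumberField Filter Topology Polynomial Matrix Module
open Pool.Agent.W569.FM Pool.Agent.R401.Img Pool.Agent.R401.Tr5 Pool.Agent.R401.Tr9
open Pool.Agent.R401 Pool.Agent.R401.Sup Pool.Agent.R401.Sup3

section series

variable {L : Type} [Field L] [CharZero L]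

/-- uniqueness -/
theorem ps_unique {f g S : PowerSeries L} (hf : PowerSeries.derivative L f = -(f * S))
    (hg : PowerSeries.derivative L g = -(g * S))
    (h0 : PowerSeries.coeff 0 f = PowerSeries.coeff 0 g) : f = g := by
  ext k
  induction k using Nat.strong_induction_on with
  | _ k ih =>
    rcases k with _ | k
    · exact h0
    · have hk : ((k : L) + 1) ≠ 0 := by exact_mod_cast Nat.succ_ne_zero k
      refine mul_right_cancel₀ hk ?_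
      have h1 := congrArg (PowerSeries.coeff k) hf
      have h2 := congrArg (PowerSeries.coeff k) hg
      rw [PowerSeries.coeff_derivative, map_neg, PowerSeries.coeff_mul] at h1 h2
      rw [h1, h2]
      congr 1
      refine Finset.sum_congr rfl fun p hp => ?_
      have h3 := Finset.HasAntidiagonal.mem_antidiagonal.mp hp
      rw [ih p.1 (by omega)]

theorem ps_rev {m : ℕ} (A : Matrix (Fin m) (Fin m) L) :
    PowerSeries.derivative L (A.charpolyRev : PowerSeries L) =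
      -((A.charpolyRev : PowerSeries L) * PowerSeries.mk fun j => (A ^ (j + 1)).trace) := by
  ext k
  rw [PowerSeries.coeff_derivative, map_neg, PowerSeries.coeff_mul, Polynomial.coeff_coe,
    Pool.Agent.TH658.Eq.newton]
  congr 1
  refine Finset.sum_congr rfl fun p hp => ?_
  rw [Polynomial.coeff_coe, PowerSeries.coeff_mk]

theorem ps_cf (s : ℕ → ℚ) :
    PowerSeries.derivative L ((PowerSeries.mk (Tr4.cf s)).map (Rat.castHom L)) =
      -(((PowerSeries.mk (Tr4.cf s)).map (Rat.castHom L)) *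
        PowerSeries.mk fun j => (s (j + 1) : L)) := by
  ext k
  rw [PowerSeries.coeff_derivative, map_neg, PowerSeries.coeff_mul, PowerSeries.coeff_map,
    PowerSeries.coeff_mk]
  have h1 : ((Tr4.cf s (k + 1) * ((k : ℚ) + 1) : ℚ) : L) = ((- ∑ p ∈
      Finset.HasAntidiagonal.antidiagonal k, Tr4.cf s p.1 * s (p.2 + 1) : ℚ) : L) := by
    rw [Tr4.cf_succ]
  push_cast at h1
  have h2 : (Rat.castHom L) (Tr4.cf s (k + 1)) = (Tr4.cf s (k + 1) : L) := rfl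
  rw [h2, h1]
  congr 1
  refine Finset.sum_congr rfl fun p hp => ?_
  rw [PowerSeries.coeff_map, PowerSeries.coeff_mk, PowerSeries.coeff_mk]
  rfl

/-- the quotient of two characteristic polynomials -/
theorem ps_quot {m m' : ℕ} (A : Matrix (Fin m) (Fin m) L) (B : Matrix (Fin m') (Fin m') L)
    (s : ℕ → ℚ) (h : ∀ k, (A ^ (k + 1)).trace = (B ^ (k + 1)).trace + (s (k + 1) : L)) :
    (A.charpolyRev : PowerSeries L) =
      (PowerSeries.mk (Tr4.cf s)).map (Rat.castHom L) * (B.charpolyRev : PowerSeries L) := by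
  refine ps_unique (S := PowerSeries.mk fun j => (A ^ (j + 1)).trace) (ps_rev A) ?_ ?_
  · rw [Derivation.leibniz, ps_rev B, ps_cf, smul_eq_mul, smul_eq_mul]
    have h1 : (PowerSeries.mk fun j => (A ^ (j + 1)).trace) =
        (PowerSeries.mk fun j => (B ^ (j + 1)).trace) +
          PowerSeries.mk fun j => (s (j + 1) : L) := by
      ext k
      rw [map_add, PowerSeries.coeff_mk, PowerSeries.coeff_mk, PowerSeries.coeff_mk, h]
    rw [h1]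
    ring
  · rw [Polynomial.coeff_coe, PowerSeries.coeff_mul, Finset.Nat.antidiagonal_zero,
      Finset.sum_singleton, PowerSeries.coeff_map, PowerSeries.coeff_mk, Tr4.cf_zero, map_one,
      one_mul, Polynomial.coeff_coe, coeff_zero_eq_eval_zero, Matrix.eval_charpolyRev,
      coeff_zero_eq_eval_zero, Matrix.eval_charpolyRev]

end series

section main

variable {K : Type} [Field K] [NumberField K]

/-- **The local factors of two semisimple families.** -/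
theorem ss_loc {n m : ℕ} (V : ∀ (ℓ : ℕ) [Fact ℓ.Prime], GF K →* GL (Fin n) ℚ_[ℓ])
    (W : ∀ (ℓ : ℕ) [Fact ℓ.Prime], GF K →* GL (Fin m) ℚ_[ℓ]) (u : ℤ)
    (φ : GF K → ℚ) (U : Subgroup (GF K)) (hUn : U.Normal) (hUo : IsOpen (U : Set (GF K)))
    (hU : ∀ x ∈ U, ∀ y, φ (x * y) = φ y)
    (hφ : ∀ (ℓ : ℕ) [Fact ℓ.Prime] (y : GF K),
      cyc K ℓ ℚ_[ℓ] y ^ u * ((mt (V ℓ) y).trace - (mt (W ℓ) y).trace) = (φ y : ℚ_[ℓ]))
    (hsV : ∀ (ℓ : ℕ) [Fact ℓ.Prime], SS (V ℓ)) (hsW : ∀ (ℓ : ℕ) [Fact ℓ.Prime], SS (W ℓ))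
    {P : Ideal (OO K)} (hP : P.IsMaximal) {q : ℕ} (hq : 2 ≤ q) {σ : GF K} (hσ : FrobAt q P σ)
    (IV : ∀ (ℓ : ℕ) [Fact ℓ.Prime], Submodule ℚ_[ℓ] (Fin n → ℚ_[ℓ]))
    (hIV : ∀ (ℓ : ℕ) [Fact ℓ.Prime] (x : Fin n → ℚ_[ℓ]),
      x ∈ IV ℓ ↔ ∀ τ, InInertia P τ → mt (V ℓ) τ *ᵥ x = x)
    (IW : ∀ (ℓ : ℕ) [Fact ℓ.Prime], Submodule ℚ_[ℓ] (Fin m → ℚ_[ℓ]))
    (hIW : ∀ (ℓ : ℕ) [Fact ℓ.Prime] (x : Fin m → ℚ_[ℓ]),
      x ∈ IW ℓ ↔ ∀ τ, InInertia P τ → mt (W ℓ) τ *ᵥ x = x) :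
    ∃ R : PowerSeries ℚ, PowerSeries.coeff 0 R = 1 ∧
      ∀ (ℓ : ℕ) [Fact ℓ.Prime], (ℓ : OO K) ∉ P →
      ∀ (r : ℕ) (b : Basis (Fin r) ℚ_[ℓ] (IV ℓ)) (A : Matrix (Fin r) (Fin r) ℚ_[ℓ]),
        (∀ j, mt (V ℓ) σ⁻¹ *ᵥ (b j : Fin n → ℚ_[ℓ]) = ∑ i, A i j • (b i : Fin n → ℚ_[ℓ])) →
      ∀ (r' : ℕ) (b' : Basis (Fin r') ℚ_[ℓ] (IW ℓ)) (B : Matrix (Fin r') (Fin r') ℚ_[ℓ]),
        (∀ j, mt (W ℓ) σ⁻¹ *ᵥ (b' j : Fin m → ℚ_[ℓ]) = ∑ i, B i j • (b' i : Fin m → ℚ_[ℓ])) →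
        (A.charpolyRev : PowerSeries ℚ_[ℓ]) =
          R.map (Rat.castHom ℚ_[ℓ]) * (B.charpolyRev : PowerSeries ℚ_[ℓ]) := by
  classical
  refine ⟨PowerSeries.mk (Tr4.cf (Tr6.sk φ U P ((q : ℚ) ^ u) σ⁻¹)), ?_, ?_⟩
  · rw [PowerSeries.coeff_mk, Tr4.cf_zero]
  intro ℓ _ hℓ r b A hA r' b' B hB
  have := Tr6.finQ U hUo (P := P)
  have hft : Fintype (IG P ⧸ U.subgroupOf (IG P)) := Fintype.ofFinite _
  have hss : ∀ {d : ℕ} (ρ : GF K →* GL (Fin d) ℚ_[ℓ]), SS ρ →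
      IsSemisimpleModule (MonoidAlgebra ℚ_[ℓ] (GF K)) (rp ρ).asModule := by
    intro d ρ hρ
    apply ss_of
    exact hρ.act
  obtain ⟨f, hf, hfV, hfW⟩ := exists_e (rp (V ℓ)) (rp (W ℓ)) (hss _ (hsV ℓ)) (hss _ (hsW ℓ))
    {τ : GF K | InInertia P τ}
  -- the projectors
  have hpr : ∀ {d : ℕ} (ρ : GF K →* GL (Fin d) ℚ_[ℓ]) (I : Submodule ℚ_[ℓ] (Fin d → ℚ_[ℓ])),
      (∀ x, x ∈ I ↔ ∀ τ, InInertia P τ → mt ρ τ *ᵥ x = x) →
      (∀ τ ∈ {τ : GF K | InInertia P τ}, ∀ x, rp ρ τ ((rp ρ).asAlgebraHom (1 - f) x) =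
        (rp ρ).asAlgebraHom (1 - f) x) →
      ∀ (r : ℕ) (b : Basis (Fin r) ℚ_[ℓ] I) (A : Matrix (Fin r) (Fin r) ℚ_[ℓ]),
        (∀ j, mt ρ σ⁻¹ *ᵥ (b j : Fin d → ℚ_[ℓ]) = ∑ i, A i j • (b i : Fin d → ℚ_[ℓ])) →
        ∀ k, (A ^ k).trace = LinearMap.trace ℚ_[ℓ] _ ((rp ρ).asAlgebraHom
          (MonoidAlgebra.of ℚ_[ℓ] (GF K) (σ ^ k)⁻¹ * (1 - f))) := by
    intro d ρ I hI hρ r b A hA k
    set e : Matrix (Fin d) (Fin d) ℚ_[ℓ] :=
      LinearMap.toMatrix' ((rp ρ).asAlgebraHom (1 - f)) with he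
    have he1 : ∀ x, e *ᵥ x = (rp ρ).asAlgebraHom (1 - f) x := by
      intro x
      rw [he, ← Matrix.toLin'_apply, Matrix.toLin'_toMatrix']
    rw [Tr4.trace_pow (e := e) (M := mt ρ σ⁻¹) ?_ ?_ b hA k]
    · have h1 : (rp ρ).asAlgebraHom (MonoidAlgebra.of ℚ_[ℓ] (GF K) (σ ^ k)⁻¹ * (1 - f)) =
          Matrix.toLin' (mt ρ σ⁻¹ ^ k * e) := by
        refine LinearMap.ext fun x => ?_
        rw [map_mul, Module.End.mul_apply, Representation.asAlgebraHom_of, rp_apply,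
          Matrix.toLin'_apply, ← Matrix.mulVec_mulVec, he1, ← inv_pow, Tr9.mt_pow]
      rw [h1, Matrix.trace_toLin'_eq]
    · intro x
      rw [he1, hI]
      intro τ hτ
      have h1 := hρ τ hτ x
      rw [rp_apply] at h1
      exact h1
    · intro x hx
      rw [he1, map_sub, map_one, LinearMap.sub_apply, kill (rp ρ) (fun τ hτ => by
        rw [rp_apply]
        exact (hI x).1 hx τ hτ) hf, sub_zero]
      rfl
  apply ps_quot
  intro k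
  have h1 := hpr (V ℓ) (IV ℓ) (hIV ℓ) hfV r b A hA (k + 1)
  have h2 := hpr (W ℓ) (IW ℓ) (hIW ℓ) hfW r' b' B hB (k + 1)
  have h3 := TT_e (V ℓ) (W ℓ) u φ U hUn hU (hφ ℓ) hP hℓ
    (Nat.one_le_pow _ _ (by omega : 0 < q)) (frob_pow hσ (k + 1)) hf hfV hfW
  rw [TT_sk (V ℓ) (W ℓ) u φ U (hφ ℓ) hP hσ hℓ, TT_apply, ← h1, ← h2] at h3
  rw [← h3]
  ring

end main

end Pool.Agent.W2helper44.PT
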