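import Pool.Agent.W2helper44.PT.Base

/-!
# Project PT: the local factor of a pure family
-/

set_option autoImplicit false
set_option maxHeartbeats 400000

namespace Pool.Agent.W2helper44.PT

open NumberField Filter Topology Polynomial Matrix Module
open Pool.Agent.W569.FM Pool.Agent.R401.Img Pool.Agent.R401.Tr5 Pool.Agent.R401.Tr9
open Pool.Agent.R401

section mono

variable {K : Type} [Field K] [NumberField K] {ℓ : ℕ} [Fact ℓ.Prime] {n : ℕ}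

/-- the data at one prime `ℓ`: an open normal subgroup and a generator of the inertia group -/
structure Gen (V : GF K →* GL (Fin n) ℚ_[ℓ]) (P : Ideal (OO K)) (H : Subgroup (GF K))
    (τ₀ : GF K) : Prop where
  nor : H.Normal
  op : IsOpen (H : Set (GF K))
  sm : ∀ x ∈ H, Tendsto (fun k : ℕ => mh V x ^ (ℓ ^ k)) atTop (𝓝 1)
  un : ∀ τ ∈ H, InInertia P τ → IsNilpotent (mt V τ - 1)
  mem : τ₀ ∈ H
  ine : InInertia P τ₀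
  gen : ∀ τ ∈ H, InInertia P τ → mt V τ ∈ closure (Set.range fun j : ℕ => mt V τ₀ ^ j)

theorem exists_gen (hCYC : P_CYC) (V : GF K →* GL (Fin n) ℚ_[ℓ]) (hV : Continuous V)
    {P : Ideal (OO K)} (hP : P.IsMaximal) (hℓP : (ℓ : OO K) ∉ P)
    (hun : ∃ H : Subgroup (GF K), IsOpen (H : Set (GF K)) ∧
      ∀ τ ∈ H, InInertia P τ → IsNilpotent (mt V τ - 1)) : ∃ H τ₀, Gen V P H τ₀ := by
  have hmc : Continuous (mh V) := Sup.continuous_mt V hV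
  obtain ⟨H, hHn, hHo, hH⟩ := exists_small (mh V) hmc
  obtain ⟨H', hHo', hH'⟩ := hun
  obtain ⟨U, hUs⟩ := ProfiniteGrp.exist_openNormalSubgroup_sub_open_nhds_of_one hHo' H'.one_mem
  have hUn : (U : Subgroup (GF K)).Normal := U.isNormal'
  have hUo : IsOpen ((U : Subgroup (GF K)) : Set (GF K)) := U.isOpen'
  have hn : (H ⊓ (U : Subgroup (GF K))).Normal := Subgroup.normal_inf_normal _ _
  have ho : IsOpen ((H ⊓ (U : Subgroup (GF K)) : Subgroup (GF K)) : Set (GF K)) := hHo.inter hUo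
  obtain ⟨τ₀, h1, h2, h3⟩ := hCYC K ℓ n (mh V) hmc (H ⊓ (U : Subgroup (GF K))) hn ho
    (fun x hx => hH x hx.1) P hP hℓP
  exact ⟨_, τ₀, hn, ho, fun x hx => hH x hx.1, fun τ hτ => hH' τ (hUs hτ.2), h1, h2, h3⟩

variable {V : GF K →* GL (Fin n) ℚ_[ℓ]} {P : Ideal (OO K)} {H : Subgroup (GF K)} {τ₀ : GF K}

/-- a power of a unipotent matrix -/
theorem pow_kill {t : Matrix (Fin n) (Fin n) ℚ_[ℓ]} {x : Fin n → ℚ_[ℓ]} {i : ℕ}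
    (hx : (t - 1) ^ i *ᵥ x = 0) {M : Matrix (Fin n) (Fin n) ℚ_[ℓ]}
    (hM : M ∈ closure (Set.range fun j : ℕ => t ^ j)) : (M - 1) ^ i *ᵥ x = 0 := by
  have hcl : IsClosed {M : Matrix (Fin n) (Fin n) ℚ_[ℓ] | (M - 1) ^ i *ᵥ x = 0} := by
    have h1 : Continuous fun M : Matrix (Fin n) (Fin n) ℚ_[ℓ] => (M - 1) ^ i *ᵥ x :=
      ((continuous_id.sub continuous_const).pow i).matrix_mulVec continuous_const
    exact isClosed_eq h1 continuous_const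
  refine closure_minimal ?_ hcl hM
  rintro _ ⟨j, rfl⟩
  change (t ^ j - 1) ^ i *ᵥ x = 0
  have h1 : t ^ j - 1 = (∑ k ∈ Finset.range j, t ^ k) * (t - 1) := (geom_sum_mul t j).symm
  have h2 : Commute (∑ k ∈ Finset.range j, t ^ k) (t - 1) := by
    apply Commute.sum_left
    intro k _
    exact ((Commute.refl t).pow_left k).sub_right (Commute.one_right _)
  rw [h1, h2.mul_pow, ← Matrix.mulVec_mulVec, hx, Matrix.mulVec_zero]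

theorem Gen.fix (hg : Gen V P H τ₀) {x : Fin n → ℚ_[ℓ]} (hx : (mt V τ₀ - 1) *ᵥ x = 0) {τ : GF K}
    (hτ : τ ∈ H) (hτI : InInertia P τ) : mt V τ *ᵥ x = x := by
  have h1 := pow_kill (t := mt V τ₀) (x := x) (i := 1) (by rwa [pow_one]) (hg.gen τ hτ hτI)
  rw [pow_one, Matrix.sub_mulVec, Matrix.one_mulVec] at h1
  exact sub_eq_zero.1 h1

theorem mt_inv_mul (g : GF K) : mt V g⁻¹ * mt V g = 1 := by rw [← mt_mul, inv_mul_cancel, mt_one]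

theorem mt_mul_inv (g : GF K) : mt V g * mt V g⁻¹ = 1 := by rw [← mt_mul, mul_inv_cancel, mt_one]

/-- the trace on the invariants of the inertia group of `H` -/
theorem Gen.trace (hLOG : P_LOG) (hTF : P_TF) (hV : Continuous V) (hg : Gen V P H τ₀)
    (hP : P.IsMaximal) (hℓP : (ℓ : OO K) ∉ P) {Q : ℕ} (hQ : 2 ≤ Q) {g : GF K}
    (hgF : FrobAt Q P g) {w : ℤ} {s : Finset ℤ} {h : ℤ → ℚ[X]}
    (hh : ∀ i, ∀ z : ℂ, aeval z (h i) = 0 → ‖z‖ ^ 2 = (Q : ℝ) ^ i)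
    (hann : ev (mt V g⁻¹) (∏ i ∈ s, h i) = 0)
    (hdim : ∀ i : ℕ, finrank ℚ_[ℓ] (LinearMap.ker (toLin' (ev (mt V g⁻¹) (h (w + i))))) =
        finrank ℚ_[ℓ] (LinearMap.ker (toLin' (ev (mt V g⁻¹) (h (w - i))))))
    (hinj : ∀ H : Subgroup (GF K), IsOpen (H : Set (GF K)) → ∀ i : ℕ, ∃ τ ∈ H, InInertia P τ ∧
        ∀ x, ev (mt V g⁻¹) (h (w + i)) *ᵥ x = 0 → (mt V τ - 1) ^ i *ᵥ x = 0 → x = 0)
    {pA pB : ℚ[X]} (hA : ∀ j ∈ s, j ≤ w → h j ∣ pA - 1) (hA' : ∀ j ∈ s, w < j → h j ∣ pA)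
    (hB : ∀ j ∈ s, j ≤ w - 2 → h j ∣ pB - 1) (hB' : ∀ j ∈ s, w - 2 < j → h j ∣ pB)
    {E : Matrix (Fin n) (Fin n) ℚ_[ℓ]} (hE : ∀ x, (mt V τ₀ - 1) *ᵥ (E *ᵥ x) = 0)
    (hE' : ∀ x, (mt V τ₀ - 1) *ᵥ x = 0 → E *ᵥ x = x) :
    (mt V g⁻¹ * E).trace = (mt V g⁻¹ * ev (mt V g⁻¹) pA).trace -
      (Q : ℚ_[ℓ]) * (mt V g⁻¹ * ev (mt V g⁻¹) pB).trace := by
  obtain ⟨l, hl, hlP⟩ := Pool.Agent.R703.FM.exists_prime_mem P hP
  have hne : ℓ ≠ l := by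
    rintro rfl
    exact hℓP hlP
  have hmc : Continuous (mh V) := Sup.continuous_mt V hV
  have hHn := hg.nor
  obtain ⟨N, u, u', hN, huu, hu'u, hcom, hrel⟩ :=
    hLOG ℚ_[ℓ] n (mt V τ₀) (hg.un τ₀ hg.mem hg.ine)
  have h1 := tame_rel' (mh V) hmc H hg.op hg.sm hl hne (by omega) hP hlP hg.mem hg.ine hgF
  have h2 : mt V g * mt V τ₀ * mt V g⁻¹ = mt V τ₀ ^ Q := by
    rw [← mt_mul, ← mt_mul]
    exact h1
  have h3 := hrel (mt V g) (mt V g⁻¹) Q (mt_mul_inv g) (mt_inv_mul g) h2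
  have h4 : N * mt V g⁻¹ = (Q : ℚ_[ℓ]) • (mt V g⁻¹ * N) := by
    rw [← mul_smul_comm, ← h3, ← mul_assoc, ← mul_assoc, mt_inv_mul, one_mul]
  have hcom' : Commute (mt V τ₀ - 1) u := hcom.sub_left (Commute.one_left u)
  have hpow : ∀ (i : ℕ) (x : Fin n → ℚ_[ℓ]), N ^ i *ᵥ x = 0 → (mt V τ₀ - 1) ^ i *ᵥ x = 0 := by
    intro i x hx
    have h5 : u' ^ i * N ^ i = (mt V τ₀ - 1) ^ i := by
      rw [hN, hcom'.eq, hcom'.symm.mul_pow, ← mul_assoc]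
      have h6 : u' ^ i * u ^ i = 1 := by
        have h7 : Commute u' u := by
          change u' * u = u * u'
          rw [huu, hu'u]
        rw [← h7.mul_pow, hu'u, one_pow]
      rw [h6, one_mul]
    rw [← h5, ← Matrix.mulVec_mulVec, hx, Matrix.mulVec_zero]
  refine hTF ℚ_[ℓ] n (mt V g⁻¹) N E Q hQ h4 w s h hh hann hdim ?_ ?_ ?_ pA pB hA hA' hB hB'
  · intro i x hx hNx
    obtain ⟨τ, hτ, hτI, hτx⟩ := hinj H hg.op i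
    exact hτx x hx (pow_kill (hpow i x hNx) (hg.gen τ hτ hτI))
  · intro x
    rw [hN, hcom'.eq, ← Matrix.mulVec_mulVec, hE, Matrix.mulVec_zero]
  · intro x hx
    apply hE'
    have := hpow 1 x (by rwa [pow_one])
    rwa [pow_one] at this

/-- a projector onto the kernel -/
theorem exists_proj {k : Type} [Field k] {n : ℕ} (M : Matrix (Fin n) (Fin n) k) :
    ∃ E : Matrix (Fin n) (Fin n) k, (∀ x, M *ᵥ (E *ᵥ x) = 0) ∧ ∀ x, M *ᵥ x = 0 → E *ᵥ x = x := by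
  obtain ⟨f, hf⟩ := (LinearMap.ker (toLin' M)).subtype.exists_leftInverse_of_injective
    (Submodule.ker_subtype _)
  refine ⟨LinearMap.toMatrix' ((LinearMap.ker (toLin' M)).subtype ∘ₗ f), ?_, ?_⟩
  · intro x
    rw [← Matrix.toLin'_apply (LinearMap.toMatrix' _), Matrix.toLin'_toMatrix', ← Matrix.toLin'_apply M]
    exact (f x).2
  · intro x hx
    rw [← Matrix.toLin'_apply (LinearMap.toMatrix' _), Matrix.toLin'_toMatrix']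
    rw [← Matrix.toLin'_apply M] at hx
    have h1 := LinearMap.congr_fun hf ⟨x, hx⟩
    exact congrArg Subtype.val h1

end mono

section pro

variable {K : Type} [Field K] [NumberField K] {ℓ : ℕ} [Fact ℓ.Prime] {n : ℕ}
  (V : GF K →* GL (Fin n) ℚ_[ℓ]) (P : Ideal (OO K)) (H : Subgroup (GF K))
  (E : Matrix (Fin n) (Fin n) ℚ_[ℓ])

/-- the projector onto the invariants -/
noncomputable def eI : Matrix (Fin n) (Fin n) ℚ_[ℓ] :=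
  ((Nat.card (IG P ⧸ H.subgroupOf (IG P)) : ℚ_[ℓ])⁻¹) •
    ∑ᶠ q : IG P ⧸ H.subgroupOf (IG P), mt V ((q.out : IG P) : GF K) * E

variable {V P H E} {τ₀ : GF K} (hg : Gen V P H τ₀) (hE : ∀ x, (mt V τ₀ - 1) *ᵥ (E *ᵥ x) = 0)
  (hE' : ∀ x, (mt V τ₀ - 1) *ᵥ x = 0 → E *ᵥ x = x)

include hg hE in
theorem mt_E {τ : GF K} (hτ : τ ∈ H) (hτI : InInertia P τ) : mt V τ * E = E := by
  apply Matrix.toLin'.injective
  refine LinearMap.ext fun x => ?_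
  rw [Matrix.toLin'_apply, Matrix.toLin'_apply, ← Matrix.mulVec_mulVec]
  exact hg.fix (hE x) hτ hτI

include hg hE in
theorem mt_out' {a b : IG P} (h : (a : IG P ⧸ H.subgroupOf (IG P)) = b) :
    mt V (a : GF K) * E = mt V (b : GF K) * E := by
  have h1 := QuotientGroup.eq.1 h
  rw [Subgroup.mem_subgroupOf] at h1
  have h2 := mt_E hg hE h1 (a⁻¹ * b).2
  have h3 : (b : GF K) = (a : GF K) * ((a⁻¹ * b : IG P) : GF K) := by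
    rw [Subgroup.coe_mul, Subgroup.coe_inv, mul_inv_cancel_left]
  rw [h3, mt_mul, mul_assoc, h2]

include hg hE in
theorem mt_mul_eI {τ : GF K} (hτ : InInertia P τ) : mt V τ * eI V P H E = eI V P H E := by
  classical
  have := Tr6.finQ H hg.op (P := P)
  have hft : Fintype (IG P ⧸ H.subgroupOf (IG P)) := Fintype.ofFinite _
  unfold eI
  rw [mul_smul_comm, finsum_eq_sum_of_fintype, Finset.mul_sum]
  congr 1
  let t : IG P := ⟨τ, hτ⟩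
  conv_rhs => rw [← Equiv.sum_comp (MulAction.toPerm t : Equiv.Perm (IG P ⧸ H.subgroupOf (IG P)))]
  refine Finset.sum_congr rfl fun q _ => ?_
  rw [← mul_assoc, ← mt_mul]
  have h1 : τ * ((q.out : IG P) : GF K) = ((t * q.out : IG P) : GF K) := rfl
  rw [h1]
  apply mt_out' hg hE
  rw [MulAction.toPerm_apply]
  have h2 : (((t • q).out : IG P) : IG P ⧸ H.subgroupOf (IG P)) = t • q := Quotient.out_eq _
  rw [h2]
  conv_rhs => rw [← Quotient.out_eq q]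
  rfl

variable {I : Submodule ℚ_[ℓ] (Fin n → ℚ_[ℓ])}
  (hI : ∀ x, x ∈ I ↔ ∀ τ, InInertia P τ → mt V τ *ᵥ x = x)

include hg hE hI in
theorem eI_mem (x : Fin n → ℚ_[ℓ]) : eI V P H E *ᵥ x ∈ I := by
  rw [hI]
  intro τ hτ
  rw [Matrix.mulVec_mulVec, mt_mul_eI hg hE hτ]

include hg hE' hI in
theorem eI_fix (x : Fin n → ℚ_[ℓ]) (hx : x ∈ I) : eI V P H E *ᵥ x = x := by
  classical
  have := Tr6.finQ H hg.op (P := P)
  have hft : Fintype (IG P ⧸ H.subgroupOf (IG P)) := Fintype.ofFinite _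
  unfold eI
  rw [Matrix.smul_mulVec, finsum_eq_sum_of_fintype, Matrix.sum_mulVec]
  have h0 : E *ᵥ x = x := by
    apply hE'
    rw [Matrix.sub_mulVec, Matrix.one_mulVec, (hI x).1 hx _ hg.ine, sub_self]
  have h1 : ∀ q : IG P ⧸ H.subgroupOf (IG P),
      (mt V ((q.out : IG P) : GF K) * E) *ᵥ x = x := by
    intro q
    rw [← Matrix.mulVec_mulVec, h0]
    exact (hI x).1 hx _ q.out.2
  rw [Finset.sum_congr rfl fun q _ => h1 q, Finset.sum_const, Finset.card_univ,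
    Nat.card_eq_fintype_card, ← Nat.cast_smul_eq_nsmul ℚ_[ℓ], smul_smul, inv_mul_cancel₀, one_smul]
  exact_mod_cast Fintype.card_ne_zero

include hg in
theorem trace_eI (M : Matrix (Fin n) (Fin n) ℚ_[ℓ]) (c : IG P → ℚ)
    (hc : ∀ x : IG P, (M * mt V (x : GF K) * E).trace = (c x : ℚ_[ℓ])) :
    (M * eI V P H E).trace = (((Nat.card (IG P ⧸ H.subgroupOf (IG P)) : ℚ)⁻¹ *
      ∑ᶠ q : IG P ⧸ H.subgroupOf (IG P), c q.out : ℚ) : ℚ_[ℓ]) := by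
  classical
  have := Tr6.finQ H hg.op (P := P)
  have hft : Fintype (IG P ⧸ H.subgroupOf (IG P)) := Fintype.ofFinite _
  unfold eI
  rw [finsum_eq_sum_of_fintype, finsum_eq_sum_of_fintype, mul_smul_comm, Matrix.trace_smul,
    Finset.mul_sum, Matrix.trace_sum, smul_eq_mul]
  have h1 : ∀ q : IG P ⧸ H.subgroupOf (IG P),
      (M * (mt V ((q.out : IG P) : GF K) * E)).trace = (c q.out : ℚ_[ℓ]) := by
    intro q
    rw [← mul_assoc, hc]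
  rw [Finset.sum_congr rfl fun q _ => h1 q]
  push_cast
  ring

end pro

section main

variable {K : Type} [Field K] [NumberField K]

/-- the trace on the invariants of small inertia groups -/
theorem exists_c (hLOG : P_LOG) (hTF : P_TF) {n : ℕ}
    (V : ∀ (ℓ : ℕ) [Fact ℓ.Prime], GF K →* GL (Fin n) ℚ_[ℓ])
    (hV : ∀ (ℓ : ℕ) [Fact ℓ.Prime], Continuous (V ℓ)) {P : Ideal (OO K)} (hP : P.IsMaximal)
    {q : ℕ} (hq : 2 ≤ q) {w : ℤ} (hpu : PU V w q P) {k : ℕ} (hk : 1 ≤ k) {g : GF K}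
    (hg : FrobAt (q ^ k) P g) : ∃ c : ℚ, ∀ (ℓ : ℕ) [Fact ℓ.Prime], (ℓ : OO K) ∉ P →
      ∀ (H : Subgroup (GF K)) (τ₀ : GF K) (E : Matrix (Fin n) (Fin n) ℚ_[ℓ]),
        Gen (V ℓ) P H τ₀ → (∀ x, (mt (V ℓ) τ₀ - 1) *ᵥ (E *ᵥ x) = 0) →
        (∀ x, (mt (V ℓ) τ₀ - 1) *ᵥ x = 0 → E *ᵥ x = x) →
        (mt (V ℓ) g⁻¹ * E).trace = (c : ℚ_[ℓ]) := by
  obtain ⟨-, htr, hwm⟩ := hpu
  obtain ⟨s, h, hh, hV2⟩ := hwm k hk g hg
  have hQ : 2 ≤ q ^ k := hq.trans (Nat.le_self_pow (by omega) q)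
  have hT : ∀ i : ℕ, ∃ t : ℚ, ∀ (ℓ : ℕ) [Fact ℓ.Prime], (ℓ : OO K) ∉ P →
      (mt (V ℓ) g⁻¹ ^ (i + 1)).trace = (t : ℚ_[ℓ]) := by
    intro i
    have h1 : FrobAt (q ^ (k * (i + 1))) P (g ^ (i + 1)) := by
      rw [pow_mul]
      exact frob_pow hg (i + 1)
    obtain ⟨t, ht⟩ := htr (k * (i + 1)) (Nat.one_le_iff_ne_zero.2 (by
      intro h0
      rcases Nat.mul_eq_zero.1 h0 with h2 | h2 <;> omega)) _ h1
    refine ⟨t, fun ℓ _ hℓ => ?_⟩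
    rw [← ht ℓ hℓ, ← Tr9.mt_pow, inv_pow]
  choose T hT using hT
  obtain ⟨pA, hA, hA'⟩ := crt hQ s h hh w
  obtain ⟨pB, hB, hB'⟩ := crt hQ s h hh (w - 2)
  refine ⟨trp T pA - (q ^ k : ℕ) * trp T pB, ?_⟩
  intro ℓ _ hℓ H τ₀ E hgen hE hE'
  obtain ⟨hann, hdim, hinj⟩ := hV2 ℓ hℓ
  rw [hgen.trace hLOG hTF (hV ℓ) hP hℓ hQ hg hh hann hdim hinj hA hA' hB hB' hE hE',
    trace_ev _ T (fun i => hT i ℓ hℓ), trace_ev _ T (fun i => hT i ℓ hℓ)]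
  push_cast
  ring

/-- **The local factor of a pure family.** -/
theorem loc (hCYC : P_CYC) (hLOG : P_LOG) (hTF : P_TF) (hAVG : P_AVG) {n : ℕ}
    (V : ∀ (ℓ : ℕ) [Fact ℓ.Prime], GF K →* GL (Fin n) ℚ_[ℓ])
    (hV : ∀ (ℓ : ℕ) [Fact ℓ.Prime], Continuous (V ℓ)) {P : Ideal (OO K)} (hP : P.IsMaximal)
    {q : ℕ} (hq : 2 ≤ q) {σ : GF K} (hσ : FrobAt q P σ) {w : ℤ} (hpu : PU V w q P)
    (I : ∀ (ℓ : ℕ) [Fact ℓ.Prime], Submodule ℚ_[ℓ] (Fin n → ℚ_[ℓ]))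
    (hI : ∀ (ℓ : ℕ) [Fact ℓ.Prime] (x : Fin n → ℚ_[ℓ]),
      x ∈ I ℓ ↔ ∀ τ, InInertia P τ → mt (V ℓ) τ *ᵥ x = x) :
    ∃ f : ℚ[X], ∀ (ℓ : ℕ) [Fact ℓ.Prime], (ℓ : OO K) ∉ P →
      ∀ (r : ℕ) (b : Basis (Fin r) ℚ_[ℓ] (I ℓ)) (A : Matrix (Fin r) (Fin r) ℚ_[ℓ]),
        (∀ j, mt (V ℓ) σ⁻¹ *ᵥ (b j : Fin n → ℚ_[ℓ]) = ∑ i, A i j • (b i : Fin n → ℚ_[ℓ])) →
        A.charpolyRev = f.map (Rat.castHom ℚ_[ℓ]) := by
  classical
  obtain ⟨ℓ₀, hℓ₀, hℓ₀P⟩ := Tr6.exists_prime_not_mem hP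
  have : Fact ℓ₀.Prime := ⟨hℓ₀⟩
  -- the data
  have hgen : ∀ (ℓ : ℕ) [Fact ℓ.Prime], (ℓ : OO K) ∉ P → ∃ H τ₀ E, Gen (V ℓ) P H τ₀ ∧
      (∀ x, (mt (V ℓ) τ₀ - 1) *ᵥ (E *ᵥ x) = 0) ∧
      (∀ x, (mt (V ℓ) τ₀ - 1) *ᵥ x = 0 → E *ᵥ x = x) := by
    intro ℓ _ hℓ
    obtain ⟨H, τ₀, hg⟩ := exists_gen hCYC (V ℓ) (hV ℓ) hP hℓ (hpu.1 ℓ hℓ)
    obtain ⟨E, hE, hE'⟩ := exists_proj (mt (V ℓ) τ₀ - 1)
    exact ⟨H, τ₀, E, hg, hE, hE'⟩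
  have hfr : ∀ (k : ℕ) (x : IG P), FrobAt (q ^ (k + 1)) P ((x : GF K)⁻¹ * σ ^ (k + 1)) := by
    intro k x
    exact frob_inertia (frob_pow hσ (k + 1)) ((IG P).inv_mem x.2)
  have hc : ∀ (k : ℕ) (x : IG P), ∃ c : ℚ, ∀ (ℓ : ℕ) [Fact ℓ.Prime], (ℓ : OO K) ∉ P →
      ∀ (H : Subgroup (GF K)) (τ₀ : GF K) (E : Matrix (Fin n) (Fin n) ℚ_[ℓ]),
        Gen (V ℓ) P H τ₀ → (∀ x, (mt (V ℓ) τ₀ - 1) *ᵥ (E *ᵥ x) = 0) →
        (∀ x, (mt (V ℓ) τ₀ - 1) *ᵥ x = 0 → E *ᵥ x = x) →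
        (mt (V ℓ) σ⁻¹ ^ (k + 1) * mt (V ℓ) (x : GF K) * E).trace = (c : ℚ_[ℓ]) := by
    intro k x
    obtain ⟨c, hc⟩ := exists_c hLOG hTF V hV hP hq hpu (Nat.succ_le_succ (Nat.zero_le k)) (hfr k x)
    refine ⟨c, fun ℓ _ hℓ H τ₀ E h1 h2 h3 => ?_⟩
    have h4 := hc ℓ hℓ H τ₀ E h1 h2 h3
    rw [_root_.mul_inv_rev, inv_inv, mt_mul, ← inv_pow, Tr9.mt_pow] at h4
    exact h4
  choose c hc using hc
  -- invariance
  have hinv : ∀ (ℓ : ℕ) [Fact ℓ.Prime], (ℓ : OO K) ∉ P → ∀ (H : Subgroup (GF K)) (τ₀ : GF K)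
      (E : Matrix (Fin n) (Fin n) ℚ_[ℓ]), Gen (V ℓ) P H τ₀ →
      (∀ x, (mt (V ℓ) τ₀ - 1) *ᵥ (E *ᵥ x) = 0) →
      (∀ x, (mt (V ℓ) τ₀ - 1) *ᵥ x = 0 → E *ᵥ x = x) → ∀ (k : ℕ) (x : IG P),
      ∀ y ∈ H.subgroupOf (IG P), c k (x * y) = c k x := by
    intro ℓ _ hℓ H τ₀ E h1 h2 h3 k x y hy
    have h4 := hc k (x * y) ℓ hℓ H τ₀ E h1 h2 h3
    have h5 := hc k x ℓ hℓ H τ₀ E h1 h2 h3
    rw [Subgroup.coe_mul, mt_mul, ← mul_assoc, mul_assoc _ _ E,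
      mt_E h1 h2 (Subgroup.mem_subgroupOf.1 hy) y.2, h5] at h4
    exact_mod_cast h4.symm
  obtain ⟨H₀, τ₀, E₀, hg₀, hE₀, hE₀'⟩ := hgen ℓ₀ hℓ₀P
  set s : ℕ → ℚ := fun k => (Nat.card (IG P ⧸ H₀.subgroupOf (IG P)) : ℚ)⁻¹ *
    ∑ᶠ q : IG P ⧸ H₀.subgroupOf (IG P), c (k - 1) q.out with hs
  have hfi : ∀ H : Subgroup (GF K), IsOpen (H : Set (GF K)) →
      (H.subgroupOf (IG P)).FiniteIndex := by
    intro H hH
    have hfin : Finite (GF K ⧸ H) := Subgroup.quotient_finite_of_isOpen _ hH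
    have hfi : H.FiniteIndex := Subgroup.finiteIndex_of_finite_quotient
    infer_instance
  have hcoeff : ∀ (ℓ : ℕ) [Fact ℓ.Prime], (ℓ : OO K) ∉ P →
      ∀ (r : ℕ) (b : Basis (Fin r) ℚ_[ℓ] (I ℓ)) (A : Matrix (Fin r) (Fin r) ℚ_[ℓ]),
        (∀ j, mt (V ℓ) σ⁻¹ *ᵥ (b j : Fin n → ℚ_[ℓ]) = ∑ i, A i j • (b i : Fin n → ℚ_[ℓ])) →
        ∀ k, A.charpolyRev.coeff k = (Tr4.cf s k : ℚ_[ℓ]) := by
    intro ℓ _ hℓP r b A hA k
    apply Tr4.coeff_eq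
    intro k
    obtain ⟨H, τ, E, hg, hE, hE'⟩ := hgen ℓ hℓP
    have := hfi H hg.op
    have := hfi H₀ hg₀.op
    rw [Tr4.trace_pow (eI_mem hg hE (hI ℓ)) (eI_fix hg hE' (hI ℓ)) b hA,
      trace_eI hg _ (c k) (fun x => hc k x ℓ hℓP H τ E hg hE hE')]
    congr 1
    exact hAVG (IG P) _ _ (c k) (hinv ℓ hℓP H τ E hg hE hE' k)
      (hinv ℓ₀ hℓ₀P H₀ τ₀ E₀ hg₀ hE₀ hE₀' k)
  obtain ⟨m₀, b₀, A₀, hA₀'⟩ := Tr6.exists_basis (V ℓ₀) hq hσ (hI ℓ₀)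
  have hzero : ∀ k, m₀ < k → Tr4.cf s k = 0 := by
    intro k hk
    have h1 := hcoeff ℓ₀ hℓ₀P m₀ b₀ A₀ hA₀' k
    rw [coeff_eq_zero_of_natDegree_lt (lt_of_le_of_lt (Tr4.natDegree_charpolyRev A₀) hk)] at h1
    exact_mod_cast h1.symm
  refine ⟨∑ k ∈ Finset.range (m₀ + 1), C (Tr4.cf s k) * X ^ k, ?_⟩
  intro ℓ _ hℓP r b A hA
  refine Polynomial.ext fun k => ?_
  rw [hcoeff ℓ hℓP r b A hA k, coeff_map, finsetSum_coeff]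
  simp only [coeff_C_mul, coeff_X_pow, mul_ite, mul_one, mul_zero]
  rw [Finset.sum_ite_eq]
  split_ifs with hk
  · rfl
  · rw [Finset.mem_range] at hk
    rw [hzero k (by omega), Rat.cast_zero, map_zero]

end main

end Pool.Agent.W2helper44.PT
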