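import Pool.Agent.W2helper44.PT.T1
import Pool.Agent.W2helper44.PT.T2
import Pool.Agent.W2helper44.PT.SS
import Pool.Agent.W2helper19.PT.CL
import Pool.Agent.W2helper23.PT.CYC
import Pool.Agent.W2helper71.PT.AVG
import Pool.Agent.W2helper71.PT.LOG
import Pool.Agent.W2helper36.PT.TF
import Pool.Agent.W2helper92.PT.BN

/-!
# Project PT: the two theorems
-/

set_option autoImplicit false
set_option maxHeartbeats 400000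

namespace Pool.Agent.W2helper44.PT

open NumberField Filter Topology Polynomial Matrix Module
open Pool.Agent.W569.FM Pool.Agent.R401.Img Pool.Agent.R401.Sup3

variable {K : Type} [Field K] [NumberField K]

theorem pure_transfer {n m : ℕ}
    (V : ∀ (ℓ : ℕ) [Fact ℓ.Prime], GF K →* GL (Fin n) ℚ_[ℓ])
    (W : ∀ (ℓ : ℕ) [Fact ℓ.Prime], GF K →* GL (Fin m) ℚ_[ℓ]) (u : ℤ)
    (φ : GF K → ℚ) (U : Subgroup (GF K)) (hUn : U.Normal) (hUo : IsOpen (U : Set (GF K)))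
    (hU : ∀ x ∈ U, ∀ y, φ (x * y) = φ y)
    (hφ : ∀ (ℓ : ℕ) [Fact ℓ.Prime] (y : GF K),
      cyc K ℓ ℚ_[ℓ] y ^ u * ((mt (V ℓ) y).trace - (mt (W ℓ) y).trace) = (φ y : ℚ_[ℓ]))
    {w : ℤ} (hw : w = 2 * u ∨ ∀ y, φ y = 0) (hss : ∀ (ℓ : ℕ) [Fact ℓ.Prime], SS (W ℓ))
    {P : Ideal (OO K)} (hP : P.IsMaximal) {q : ℕ} (hq : 2 ≤ q) (hpu : PU W w q P) :
    PU V w q P :=
  pure_of Pool.Agent.W2helper92.PT.p_bn Pool.Agent.W2helper19.PT.p_cl V W u φ U hUn hUo hU hφ hw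
    hss hP hq hpu

theorem pure_loc {n : ℕ}
    (V : ∀ (ℓ : ℕ) [Fact ℓ.Prime], GF K →* GL (Fin n) ℚ_[ℓ])
    (hV : ∀ (ℓ : ℕ) [Fact ℓ.Prime], Continuous (V ℓ)) {P : Ideal (OO K)} (hP : P.IsMaximal)
    {q : ℕ} (hq : 2 ≤ q) {σ : GF K} (hσ : FrobAt q P σ) {w : ℤ} (hpu : PU V w q P)
    (I : ∀ (ℓ : ℕ) [Fact ℓ.Prime], Submodule ℚ_[ℓ] (Fin n → ℚ_[ℓ]))
    (hI : ∀ (ℓ : ℕ) [Fact ℓ.Prime] (x : Fin n → ℚ_[ℓ]),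
      x ∈ I ℓ ↔ ∀ τ, InInertia P τ → mt (V ℓ) τ *ᵥ x = x) :
    ∃ f : ℚ[X], ∀ (ℓ : ℕ) [Fact ℓ.Prime], (ℓ : OO K) ∉ P →
      ∀ (r : ℕ) (b : Basis (Fin r) ℚ_[ℓ] (I ℓ)) (A : Matrix (Fin r) (Fin r) ℚ_[ℓ]),
        (∀ j, mt (V ℓ) σ⁻¹ *ᵥ (b j : Fin n → ℚ_[ℓ]) = ∑ i, A i j • (b i : Fin n → ℚ_[ℓ])) →
        A.charpolyRev = f.map (Rat.castHom ℚ_[ℓ]) :=
  loc Pool.Agent.W2helper23.PT.p_cyc Pool.Agent.W2helper71.PT.p_log Pool.Agent.W2helper36.PT.p_tf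
    Pool.Agent.W2helper71.PT.p_avg V hV hP hq hσ hpu I hI

end Pool.Agent.W2helper44.PT
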