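import Pool.Agent.W2helper44.PT.T1a

/-!
# Project PT: the projector onto the invariants in the group algebra (semisimple case)
-/

set_option autoImplicit false
set_option maxHeartbeats 400000

namespace Pool.Agent.W2helper44.PT

open Filter Topology Polynomial Module

section proj

/-- a left ideal acts on a semisimple module like an idempotent -/
theorem exists_idem {k : Type} [Field k] {A : Type} [Ring A] [Algebra k A] {E : Type}
    [AddCommGroup E] [Module k E] [Module A E] [IsScalarTower k A E] [FiniteDimensional k E]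
    (hE : IsSemisimpleModule A E) (J : Ideal A) :
    ∃ f ∈ J, ∀ j ∈ J, ∀ y : E, j • ((1 - f) • y) = 0 := by
  classical
  let b := Module.finBasis k E
  let M : Type := Fin (finrank k E) → E
  have hM : IsSemisimpleModule A M := inferInstance
  let x : M := b
  let JX : Submodule A M := Submodule.map (LinearMap.toSpanSingleton A M x) (J : Submodule A A)
  obtain ⟨C, hC⟩ := exists_isCompl JX
  have hx : x ∈ JX ⊔ C := by
    rw [hC.sup_eq_top]
    exact Submodule.mem_top
  obtain ⟨y, hy, z, hz, hyz⟩ := Submodule.mem_sup.1 hx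
  obtain ⟨f, hf, hfy⟩ := hy
  rw [LinearMap.toSpanSingleton_apply] at hfy
  refine ⟨f, hf, ?_⟩
  have h1 : (1 - f) • x = z := by
    rw [sub_smul, one_smul, hfy, ← hyz, add_sub_cancel_left]
  have h2 : ∀ j ∈ J, (j * (1 - f)) • x = 0 := by
    intro j hj
    have h3 : (j * (1 - f)) • x ∈ C := by
      rw [mul_smul, h1]
      exact C.smul_mem j hz
    have h4 : (j * (1 - f)) • x ∈ JX := by
      refine ⟨j * (1 - f), ?_, rfl⟩
      have h5 : j * (1 - f) = j - j * f := by rw [mul_sub, mul_one]
      rw [h5]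
      exact J.sub_mem hj (J.mul_mem_left j hf)
    have h5 : (j * (1 - f)) • x ∈ JX ⊓ C := ⟨h4, h3⟩
    rw [hC.inf_eq_bot] at h5
    exact (Submodule.mem_bot A).1 h5
  intro j hj y
  have h3 : (Algebra.lsmul k k E (j * (1 - f)) : E →ₗ[k] E) = 0 := by
    refine b.ext fun i => ?_
    have h4 := congrFun (h2 j hj) i
    exact h4
  have h4 := LinearMap.congr_fun h3 y
  rw [← mul_smul]
  exact h4

variable {k : Type} [Field k] [CharZero k] {G : Type} [Group G]

/-- the left ideal generated by the elements `τ - 1` -/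
noncomputable def JJ (k : Type) [Field k] {G : Type} [Group G] (I : Set G) : Ideal (MonoidAlgebra k G) :=
  Ideal.span ((fun τ => MonoidAlgebra.of k G τ - 1) '' I)

theorem kill {M : Type} [AddCommGroup M] [Module k M] (ρ : Representation k G M) {I : Set G}
    {x : M} (hx : ∀ τ ∈ I, ρ τ x = x) {f : MonoidAlgebra k G} (hf : f ∈ JJ k I) :
    ρ.asAlgebraHom f x = 0 := by
  unfold JJ at hf
  induction hf using Submodule.span_induction with
  | mem f hf =>
    obtain ⟨τ, hτ, rfl⟩ := hf
    rw [map_sub, map_one, Representation.asAlgebraHom_of, LinearMap.sub_apply, hx τ hτ]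
    exact sub_self x
  | zero => rw [map_zero, LinearMap.zero_apply]
  | add f g _ _ hf hg => rw [map_add, LinearMap.add_apply, hf, hg, add_zero]
  | smul a f _ hf => rw [smul_eq_mul, map_mul, Module.End.mul_apply, hf, map_zero]

/-- the projector onto the invariants -/
theorem exists_e {n m : ℕ} (ρV : Representation k G (Fin n → k))
    (ρW : Representation k G (Fin m → k))
    (hV : IsSemisimpleModule (MonoidAlgebra k G) ρV.asModule)
    (hW : IsSemisimpleModule (MonoidAlgebra k G) ρW.asModule) (I : Set G) :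
    ∃ f ∈ JJ k I, (∀ τ ∈ I, ∀ x, ρV τ (ρV.asAlgebraHom (1 - f) x) = ρV.asAlgebraHom (1 - f) x) ∧
      ∀ τ ∈ I, ∀ x, ρW τ (ρW.asAlgebraHom (1 - f) x) = ρW.asAlgebraHom (1 - f) x := by
  obtain ⟨f, hf, h⟩ := exists_idem (k := k) (prod_ss hV hW) (JJ k I)
  have hmem : ∀ τ ∈ I, MonoidAlgebra.of k G τ - 1 ∈ JJ k I := fun τ hτ =>
    Ideal.subset_span ⟨τ, hτ, rfl⟩
  refine ⟨f, hf, ?_, ?_⟩
  · intro τ hτ x
    have h1 := congrArg Prod.fst (h _ (hmem τ hτ) ((x : ρV.asModule), (0 : ρW.asModule)))
    have h2 : ρV.asAlgebraHom (MonoidAlgebra.of k G τ - 1) (ρV.asAlgebraHom (1 - f) x) = 0 := h1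
    rw [map_sub, map_one, Representation.asAlgebraHom_of, LinearMap.sub_apply] at h2
    exact sub_eq_zero.1 h2
  · intro τ hτ x
    have h1 := congrArg Prod.snd (h _ (hmem τ hτ) ((0 : ρV.asModule), (x : ρW.asModule)))
    have h2 : ρW.asAlgebraHom (MonoidAlgebra.of k G τ - 1) (ρW.asAlgebraHom (1 - f) x) = 0 := h1
    rw [map_sub, map_one, Representation.asAlgebraHom_of, LinearMap.sub_apply] at h2
    exact sub_eq_zero.1 h2

end proj

end Pool.Agent.W2helper44.PT
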