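import Pool.Agent.W2helper44.PT.T1
import Pool.Agent.W2helper44.PT.SSa

/-!
# Project PT: the traces on the invariants (semisimple case)
-/

set_option autoImplicit false
set_option maxHeartbeats 400000

namespace Pool.Agent.W2helper44.PT

open NumberField Filter Topology Polynomial Matrix Module
open Pool.Agent.W569.FM Pool.Agent.R401.Img Pool.Agent.R401.Tr5 Pool.Agent.R401.Tr9
open Pool.Agent.R401 Pool.Agent.R401.Sup Pool.Agent.R401.Sup3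

section one

variable {K : Type} [Field K] [NumberField K] {ℓ : ℕ} [Fact ℓ.Prime] {n m : ℕ}
  (V : GF K →* GL (Fin n) ℚ_[ℓ]) (W : GF K →* GL (Fin m) ℚ_[ℓ]) (u : ℤ) (φ : GF K → ℚ)
  (U : Subgroup (GF K)) (hUn : U.Normal) (hUo : IsOpen (U : Set (GF K)))
  (hU : ∀ x ∈ U, ∀ y, φ (x * y) = φ y)
  (hφ : ∀ y : GF K, cyc K ℓ ℚ_[ℓ] y ^ u * ((mt V y).trace - (mt W y).trace) = (φ y : ℚ_[ℓ]))
  {P : Ideal (OO K)} (hP : P.IsMaximal) {q : ℕ} (hq : 2 ≤ q) {σ : GF K} (hσ : FrobAt q P σ)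
  (hℓP : (ℓ : OO K) ∉ P)

/-- the action as a representation -/
noncomputable def rp {r : ℕ} (ρ : GF K →* GL (Fin r) ℚ_[ℓ]) :
    Representation ℚ_[ℓ] (GF K) (Fin r → ℚ_[ℓ]) := act ρ

theorem rp_apply {r : ℕ} (ρ : GF K →* GL (Fin r) ℚ_[ℓ]) (g : GF K) (x : Fin r → ℚ_[ℓ]) :
    rp ρ g x = mt ρ g *ᵥ x := act_apply_apply ρ g x

/-- the difference of the traces -/
noncomputable def TT : MonoidAlgebra ℚ_[ℓ] (GF K) →ₗ[ℚ_[ℓ]] ℚ_[ℓ] :=
  (LinearMap.trace ℚ_[ℓ] _) ∘ₗ (rp V).asAlgebraHom.toLinearMap -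
    (LinearMap.trace ℚ_[ℓ] _) ∘ₗ (rp W).asAlgebraHom.toLinearMap

theorem TT_apply (a : MonoidAlgebra ℚ_[ℓ] (GF K)) : TT V W a =
    LinearMap.trace ℚ_[ℓ] _ ((rp V).asAlgebraHom a) -
      LinearMap.trace ℚ_[ℓ] _ ((rp W).asAlgebraHom a) := rfl

theorem TT_comm (a b : MonoidAlgebra ℚ_[ℓ] (GF K)) : TT V W (a * b) = TT V W (b * a) := by
  rw [TT_apply, TT_apply, map_mul (rp V).asAlgebraHom, map_mul (rp V).asAlgebraHom,
    map_mul (rp W).asAlgebraHom, map_mul (rp W).asAlgebraHom, LinearMap.trace_mul_comm,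
    LinearMap.trace_mul_comm _ ((rp W).asAlgebraHom a)]

include hφ in
theorem TT_of (g : GF K) : TT V W (MonoidAlgebra.of ℚ_[ℓ] (GF K) g) =
    (cyc K ℓ ℚ_[ℓ] g ^ u)⁻¹ * (φ g : ℚ_[ℓ]) := by
  have h1 := tr_eq V W u φ hφ g
  have h2 : LinearMap.trace ℚ_[ℓ] _ (rp V g) = (mt V g).trace := trace_act V g
  have h3 : LinearMap.trace ℚ_[ℓ] _ (rp W g) = (mt W g).trace := trace_act W g
  rw [TT_apply, Representation.asAlgebraHom_of, Representation.asAlgebraHom_of, h2, h3, h1]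
  ring

include hU hφ in
theorem TT_inv {y : GF K} (hy : y ∈ U) (hy1 : cyc K ℓ ℚ_[ℓ] y = 1) (g : GF K) :
    TT V W (MonoidAlgebra.of ℚ_[ℓ] (GF K) (y * g)) = TT V W (MonoidAlgebra.of ℚ_[ℓ] (GF K) g) := by
  rw [TT_of V W u φ hφ, TT_of V W u φ hφ, map_mul, hy1, one_mul, hU y hy]

include hUn hU hφ hP hℓP in
theorem TT_out (F g : GF K) {a b : IG P} (h : (a : IG P ⧸ U.subgroupOf (IG P)) = b) :
    TT V W (MonoidAlgebra.of ℚ_[ℓ] (GF K) (F * (a : GF K) * g)) =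
      TT V W (MonoidAlgebra.of ℚ_[ℓ] (GF K) (F * (b : GF K) * g)) := by
  have h1 := QuotientGroup.eq.1 h
  rw [Subgroup.mem_subgroupOf] at h1
  have h2 : ((a⁻¹ * b : IG P) : GF K) ∈ U := h1
  have h3 := hUn.conj_mem _ h2 (F * (a : GF K))
  have h4 : cyc K ℓ ℚ_[ℓ] (F * (a : GF K) * ((a⁻¹ * b : IG P) : GF K) * (F * (a : GF K))⁻¹) = 1 := by
    rw [map_mul, map_mul _ (F * (a : GF K)), cyc_inertia hP hℓP frob_one (a⁻¹ * b).2, mul_one,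
      ← map_mul, mul_inv_cancel, map_one]
  have h5 := TT_inv V W u φ U hU hφ h3 h4 (F * (a : GF K) * g)
  rw [← h5]
  congr 2
  rw [Subgroup.coe_mul, Subgroup.coe_inv]
  group

/-- the average -/
noncomputable def av (ℓ : ℕ) [Fact ℓ.Prime] (U : Subgroup (GF K)) (P : Ideal (OO K))
    [Fintype (IG P ⧸ U.subgroupOf (IG P))] : MonoidAlgebra ℚ_[ℓ] (GF K) :=
  ((Fintype.card (IG P ⧸ U.subgroupOf (IG P)) : ℚ_[ℓ])⁻¹) •
    ∑ x : IG P ⧸ U.subgroupOf (IG P), MonoidAlgebra.of ℚ_[ℓ] (GF K) ((x.out : IG P) : GF K)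

variable [Fintype (IG P ⧸ U.subgroupOf (IG P))]

omit [NumberField K] in
theorem conj_inertia {Q : ℕ} (hQ : 1 ≤ Q) {s : GF K} (hs : FrobAt Q P s) {τ : GF K}
    (hτ : InInertia P τ) : InInertia P (s * τ * s⁻¹) := by
  intro y
  have h2 : (s * τ * s⁻¹) • y - y = s • (τ • (s⁻¹ • y) - s⁻¹ • y) := by
    rw [smul_sub, smul_inv_smul, mul_smul, mul_smul]
  rw [h2]
  have h3 := hτ (s⁻¹ • y)
  set z := τ • (s⁻¹ • y) - s⁻¹ • y
  have h4 : s • z = (s • z - z ^ Q) + z ^ Q := by abel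
  rw [h4]
  exact P.add_mem (hs z) (P.pow_mem_of_mem h3 Q (by omega))

include hUn hU hφ hP hℓP in
theorem TT_av_of {Q : ℕ} (hQ : 1 ≤ Q) {s : GF K} (hs : FrobAt Q P s) {τ : GF K}
    (hτ : InInertia P τ) (g : GF K) :
    TT V W (MonoidAlgebra.of ℚ_[ℓ] (GF K) s⁻¹ * av ℓ U P * MonoidAlgebra.of ℚ_[ℓ] (GF K) g *
      (MonoidAlgebra.of ℚ_[ℓ] (GF K) τ - 1)) = 0 := by
  rw [mul_sub, mul_one, map_sub, TT_comm, sub_eq_zero]
  unfold av
  simp only [mul_smul_comm, smul_mul_assoc, map_smul, Finset.mul_sum, Finset.sum_mul, map_sum,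
    ← map_mul]
  congr 1
  let t : IG P := ⟨s * τ * s⁻¹, conj_inertia hQ hs hτ⟩
  conv_rhs => rw [← Equiv.sum_comp (MulAction.toPerm t : Equiv.Perm (IG P ⧸ U.subgroupOf (IG P)))]
  refine Finset.sum_congr rfl fun x _ => ?_
  have h1 : τ * (s⁻¹ * ((x.out : IG P) : GF K) * g) = s⁻¹ * ((t * x.out : IG P) : GF K) * g := by
    have : ((t * x.out : IG P) : GF K) = s * τ * s⁻¹ * ((x.out : IG P) : GF K) := rfl
    rw [this]
    group
  rw [h1]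
  refine TT_out V W u φ U hUn hU hφ hP hℓP s⁻¹ g ?_
  rw [MulAction.toPerm_apply]
  have h2 : (((t • x).out : IG P) : IG P ⧸ U.subgroupOf (IG P)) = t • x := Quotient.out_eq _
  rw [h2]
  conv_rhs => rw [← Quotient.out_eq x]
  rfl

include hUn hU hφ hP hℓP in
theorem TT_av {Q : ℕ} (hQ : 1 ≤ Q) {s : GF K} (hs : FrobAt Q P s) {τ : GF K}
    (hτ : InInertia P τ) (c : MonoidAlgebra ℚ_[ℓ] (GF K)) :
    TT V W (MonoidAlgebra.of ℚ_[ℓ] (GF K) s⁻¹ * av ℓ U P * c *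
      (MonoidAlgebra.of ℚ_[ℓ] (GF K) τ - 1)) = 0 := by
  induction c using MonoidAlgebra.induction_linear with
  | zero => rw [mul_zero, zero_mul, map_zero]
  | add a b ha hb => rw [mul_add, add_mul, map_add, ha, hb, add_zero]
  | single y t =>
    have h1 : MonoidAlgebra.single y t = t • MonoidAlgebra.of ℚ_[ℓ] (GF K) y := by
      rw [MonoidAlgebra.of_apply, MonoidAlgebra.smul_single, smul_eq_mul, mul_one]
    rw [h1, mul_smul_comm, smul_mul_assoc, map_smul,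
      TT_av_of V W u φ U hUn hU hφ hP hℓP hQ hs hτ, smul_zero]

include hUn hU hφ hP hℓP in
theorem TT_JJ {Q : ℕ} (hQ : 1 ≤ Q) {s : GF K} (hs : FrobAt Q P s) {f : MonoidAlgebra ℚ_[ℓ] (GF K)}
    (hf : f ∈ JJ ℚ_[ℓ] {τ : GF K | InInertia P τ}) (c : MonoidAlgebra ℚ_[ℓ] (GF K)) :
    TT V W (MonoidAlgebra.of ℚ_[ℓ] (GF K) s⁻¹ * av ℓ U P * c * f) = 0 := by
  unfold JJ at hf
  induction hf using Submodule.span_induction generalizing c with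
  | mem f hf =>
    obtain ⟨τ, hτ, rfl⟩ := hf
    exact TT_av V W u φ U hUn hU hφ hP hℓP hQ hs hτ c
  | zero => rw [mul_zero, map_zero]
  | add f g _ _ hf hg => rw [mul_add, map_add, hf, hg, add_zero]
  | smul a f _ hf =>
    rw [smul_eq_mul, ← mul_assoc, mul_assoc _ c a]
    exact hf (c * a)

theorem av_fix {r : ℕ} (ρ : GF K →* GL (Fin r) ℚ_[ℓ]) {x : Fin r → ℚ_[ℓ]}
    (hx : ∀ τ, InInertia P τ → rp ρ τ x = x) : (rp ρ).asAlgebraHom (av ℓ U P) x = x := by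
  unfold av
  rw [map_smul, map_sum, LinearMap.smul_apply, LinearMap.sum_apply]
  have h1 : ∀ y : IG P ⧸ U.subgroupOf (IG P),
      (rp ρ).asAlgebraHom (MonoidAlgebra.of ℚ_[ℓ] (GF K) ((y.out : IG P) : GF K)) x = x := by
    intro y
    rw [Representation.asAlgebraHom_of]
    exact hx _ y.out.2
  rw [Finset.sum_congr rfl fun y _ => h1 y, Finset.sum_const, Finset.card_univ,
    ← Nat.cast_smul_eq_nsmul ℚ_[ℓ], smul_smul, inv_mul_cancel₀, one_smul]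
  exact_mod_cast Fintype.card_ne_zero

include hUn hU hφ hP hℓP in
/-- the traces on the invariants -/
theorem TT_e {Q : ℕ} (hQ : 1 ≤ Q) {s : GF K} (hs : FrobAt Q P s) {f : MonoidAlgebra ℚ_[ℓ] (GF K)}
    (hf : f ∈ JJ ℚ_[ℓ] {τ : GF K | InInertia P τ})
    (hV : ∀ τ, InInertia P τ → ∀ x, rp V τ ((rp V).asAlgebraHom (1 - f) x) =
      (rp V).asAlgebraHom (1 - f) x)
    (hW : ∀ τ, InInertia P τ → ∀ x, rp W τ ((rp W).asAlgebraHom (1 - f) x) =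
      (rp W).asAlgebraHom (1 - f) x) :
    TT V W (MonoidAlgebra.of ℚ_[ℓ] (GF K) s⁻¹ * (1 - f)) =
      TT V W (MonoidAlgebra.of ℚ_[ℓ] (GF K) s⁻¹ * av ℓ U P) := by
  have h1 : ∀ {r : ℕ} (ρ : GF K →* GL (Fin r) ℚ_[ℓ]), (∀ τ, InInertia P τ → ∀ x,
      rp ρ τ ((rp ρ).asAlgebraHom (1 - f) x) = (rp ρ).asAlgebraHom (1 - f) x) →
      (rp ρ).asAlgebraHom (MonoidAlgebra.of ℚ_[ℓ] (GF K) s⁻¹ * (1 - f)) =
        (rp ρ).asAlgebraHom (MonoidAlgebra.of ℚ_[ℓ] (GF K) s⁻¹ * av ℓ U P * (1 - f)) := by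
    intro r ρ hρ
    refine LinearMap.ext fun x => ?_
    rw [map_mul, map_mul, map_mul, Module.End.mul_apply, Module.End.mul_apply,
      Module.End.mul_apply, av_fix U ρ (fun τ hτ => hρ τ hτ x)]
  have h2 : TT V W (MonoidAlgebra.of ℚ_[ℓ] (GF K) s⁻¹ * (1 - f)) =
      TT V W (MonoidAlgebra.of ℚ_[ℓ] (GF K) s⁻¹ * av ℓ U P * (1 - f)) := by
    rw [TT_apply, TT_apply, h1 V hV, h1 W hW]
  have h3 := TT_JJ V W u φ U hUn hU hφ hP hℓP hQ hs hf 1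
  rw [mul_one] at h3
  rw [h2, mul_sub, mul_one, map_sub, h3, sub_zero]

include hφ hP hℓP hσ in
theorem TT_sk (k : ℕ) : TT V W (MonoidAlgebra.of ℚ_[ℓ] (GF K) (σ ^ k)⁻¹ * av ℓ U P) =
    (Tr6.sk φ U P ((q : ℚ) ^ u) σ⁻¹ k : ℚ_[ℓ]) := by
  unfold av Tr6.sk
  have hc := cyc_sigma (ℓ := ℓ) hP hσ hℓP
  rw [mul_smul_comm, map_smul, Finset.mul_sum, map_sum, finsum_eq_sum_of_fintype, smul_eq_mul]
  have h1 : ∀ x : IG P ⧸ U.subgroupOf (IG P), TT V W (MonoidAlgebra.of ℚ_[ℓ] (GF K) (σ ^ k)⁻¹ *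
      MonoidAlgebra.of ℚ_[ℓ] (GF K) ((x.out : IG P) : GF K)) =
      ((q : ℚ_[ℓ]) ^ u) ^ k * (φ (σ⁻¹ ^ k * ((x.out : IG P) : GF K)) : ℚ_[ℓ]) := by
    intro x
    have h2 : (((q : ℚ_[ℓ]) ^ k) ^ u) = ((q : ℚ_[ℓ]) ^ u) ^ k := by
      rw [← zpow_natCast, ← zpow_natCast, _root_.zpow_comm]
    rw [← map_mul, TT_of V W u φ hφ, map_mul, cyc_inertia hP hℓP frob_one x.out.2, mul_one, c_inv,
      map_pow, hc, inv_pow, _root_.inv_zpow, inv_inv, h2]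
  rw [Finset.sum_congr rfl fun x _ => h1 x, ← Finset.mul_sum, Nat.card_eq_fintype_card]
  push_cast
  ring

end one

end Pool.Agent.W2helper44.PT
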