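import Pool.Agent.W2helper44.PT.T1a

/-!
# Project PT: the comparison at one place
-/

set_option autoImplicit false
set_option maxHeartbeats 400000

namespace Pool.Agent.W2helper44.PT

open NumberField Filter Topology Polynomial Matrix Module
open Pool.Agent.W569.FM Pool.Agent.R401.Img Pool.Agent.R401.Tr5 Pool.Agent.R401.Tr9
open Pool.Agent.R401 Pool.Agent.R401.Sup Pool.Agent.R401.Sup3

section pure

/-- the modified polynomials -/
noncomputable def GG (h : ℤ → ℚ[X]) (w : ℤ) (c D : ℚ) (i : ℤ) : ℚ[X] :=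
  open Classical in if i = w ∧ c ≠ 0 then h i * (X - C D) else h i

theorem GG_ne {h : ℤ → ℚ[X]} {w : ℤ} {c D : ℚ} {i : ℤ} (hi : i ≠ w) : GG h w c D i = h i := by
  unfold GG
  rw [if_neg]
  intro h1
  exact hi h1.1

theorem dvd_GG (h : ℤ → ℚ[X]) (w : ℤ) (c D : ℚ) (i : ℤ) : h i ∣ GG h w c D i := by
  unfold GG
  split_ifs with h1
  · exact dvd_mul_right _ _
  · exact dvd_rfl

theorem eval_GG (h : ℤ → ℚ[X]) (w : ℤ) (c D : ℚ) : c * (GG h w c D w).eval D = 0 := by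
  unfold GG
  split_ifs with h1
  · rw [eval_mul, eval_sub, eval_X, eval_C, sub_self, mul_zero, mul_zero]
  · push Not at h1
    rw [h1 rfl, zero_mul]

theorem root_GG {h : ℤ → ℚ[X]} {w : ℤ} {c D : ℚ} {B : ℝ}
    (hh : ∀ i, ∀ z : ℂ, aeval z (h i) = 0 → ‖z‖ ^ 2 = B ^ i)
    (hD : c ≠ 0 → ‖(D : ℂ)‖ ^ 2 = B ^ w) (i : ℤ) (z : ℂ) (hz : aeval z (GG h w c D i) = 0) :
    ‖z‖ ^ 2 = B ^ i := by
  unfold GG at hz
  split_ifs at hz with h1
  · rw [map_mul, mul_eq_zero] at hz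
    rcases hz with hz | hz
    · exact hh i z hz
    · rw [map_sub, aeval_X, aeval_C, sub_eq_zero] at hz
      have h2 := hD h1.2
      rw [hz, h1.1]
      exact h2
  · exact hh i z hz

variable {k : Type} [Field k] [CharZero k] {n m : ℕ}

theorem coprime_pow {B : ℕ} (hB : 2 ≤ B) {G : ℤ → ℚ[X]}
    (hG : ∀ i, ∀ z : ℂ, aeval z (G i) = 0 → ‖z‖ ^ 2 = (B : ℝ) ^ i) (s : Finset ℤ) (l : ℤ)
    (r r' : ℕ) : IsCoprime (G l ^ r) ((∏ i ∈ s.erase l, G i) ^ r') := by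
  apply IsCoprime.pow
  apply IsCoprime.prod_right
  intro i hi
  exact coprime_of_weight hB (Finset.ne_of_mem_erase hi).symm (hG l) (hG i)

/-- the dimension of the parts -/
theorem dim_eq {B : ℕ} (hB : 2 ≤ B) {γV : Matrix (Fin n) (Fin n) k} {γW : Matrix (Fin m) (Fin m) k}
    {c D : ℚ} (htr : ∀ i : ℕ, (γV ^ i).trace = (γW ^ i).trace + c * (D : k) ^ i)
    {h : ℤ → ℚ[X]} (hh : ∀ i, ∀ z : ℂ, aeval z (h i) = 0 → ‖z‖ ^ 2 = (B : ℝ) ^ i) {w : ℤ}
    (hD : c ≠ 0 → ‖(D : ℂ)‖ ^ 2 = (B : ℝ) ^ w) {s : Finset ℤ} (hW : ev γW (∏ i ∈ s, h i) = 0)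
    {r : ℕ} (hr : n ≤ r) (hr0 : r ≠ 0) :
    ev γV ((∏ i ∈ insert w s, GG h w c D i) ^ r) = 0 ∧
    ∀ l, l ≠ w → finrank k (LinearMap.ker (toLin' (ev γV (GG h w c D l ^ r)))) =
      finrank k (LinearMap.ker (toLin' (ev γW (h l)))) := by
  classical
  have hG := root_GG hh hD
  set G : ℤ → ℚ[X] := GG h w c D with hGdef
  have hdvd : ∀ s' : Finset ℤ, s ⊆ s' → (∏ i ∈ s, h i) ∣ ∏ i ∈ s', G i := by
    intro s' hs'
    exact (Finset.prod_dvd_prod_of_dvd _ _ fun i _ => dvd_GG h w c D i).trans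
      (Finset.prod_dvd_prod_of_subset _ _ _ hs')
  have hWz : ∀ s' : Finset ℤ, s ⊆ s' → ev γW (∏ i ∈ s', G i) = 0 := by
    intro s' hs'
    obtain ⟨d, hd⟩ := hdvd s' hs'
    rw [hd, map_mul, hW, zero_mul]
  have hDz : ∀ s' : Finset ℤ, w ∈ s' → c * (∏ i ∈ s', G i).eval D = 0 := by
    intro s' hs'
    obtain ⟨d, hd⟩ := Finset.dvd_prod_of_mem G hs'
    rw [hd, eval_mul, ← mul_assoc, eval_GG, zero_mul]
  have hVz : ∀ s' : Finset ℤ, s ⊆ s' → w ∈ s' → ev γV ((∏ i ∈ s', G i) ^ r) = 0 := by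
    intro s' hs' hw'
    rw [map_pow]
    apply pow_eq_zero_of_nil _ hr
    apply nil_of_trace
    intro j
    rw [← map_pow, trace_ev_all htr, pow_succ, map_mul, hWz s' hs', mul_zero, Matrix.trace_zero,
      eval_mul, mul_comm (eval D _), ← mul_assoc, hDz s' hw', zero_mul, Rat.cast_zero, add_zero]
  refine ⟨hVz _ (Finset.subset_insert w s) (Finset.mem_insert_self w s), ?_⟩
  intro l hl
  set s' : Finset ℤ := insert l (insert w s) with hs'
  have hss' : s ⊆ s' := (Finset.subset_insert w s).trans (Finset.subset_insert _ _)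
  have hws' : w ∈ s' := Finset.mem_insert_of_mem (Finset.mem_insert_self w s)
  have hls' : l ∈ s' := Finset.mem_insert_self _ _
  have hprod : (∏ i ∈ s', G i) = G l * ∏ i ∈ s'.erase l, G i := (Finset.mul_prod_erase s' G hls').symm
  obtain ⟨a, b, hab⟩ := coprime_pow hB hG s' l r r
  have h1 := trace_proj (γ := γV) hab (by rw [← mul_pow, ← hprod]; exact hVz s' hss' hws')
  have h2 := trace_proj (γ := γW) hab (by
    rw [← mul_pow, ← hprod, map_pow, hWz s' hss', zero_pow hr0])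
  rw [trace_ev_all htr, h2] at h1
  have h3 : c * (b * (∏ i ∈ s'.erase l, G i) ^ r).eval D = 0 := by
    obtain ⟨d, hd⟩ := Finset.dvd_prod_of_mem G (Finset.mem_erase.2 ⟨Ne.symm hl, hws'⟩)
    obtain ⟨r', rfl⟩ := Nat.exists_eq_succ_of_ne_zero hr0
    rw [pow_succ, hd, eval_mul, eval_mul, eval_mul]
    have h4 := eval_GG h w c D
    rw [← hGdef] at h4
    linear_combination (eval D b * eval D ((G w * d) ^ r') * eval D d) * h4
  rw [h3, Rat.cast_zero, add_zero] at h1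
  have h5 : finrank k (LinearMap.ker (toLin' (ev γW (G l ^ r)))) =
      finrank k (LinearMap.ker (toLin' (ev γV (G l ^ r)))) := by exact_mod_cast h1
  rw [← h5]
  have hGl : G l = h l := GG_ne hl
  have h6 : LinearMap.ker (toLin' (ev γW (G l ^ r))) = LinearMap.ker (toLin' (ev γW (h l))) := by
    ext x
    rw [ker_eq, ker_eq, ← hGl]
    constructor
    · intro hx
      refine ker_pow (R := ∏ i ∈ s'.erase l, G i) ?_ ?_ hx
      · have := coprime_pow hB hG s' l 1 1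
        rwa [pow_one, pow_one] at this
      · rw [← hprod]
        exact hWz s' hss'
    · intro hx
      obtain ⟨r', rfl⟩ := Nat.exists_eq_succ_of_ne_zero hr0
      rw [pow_succ, ← ev_mulVec_comm, hx, Matrix.mulVec_zero]
  rw [h6]

end pure

section one

variable {K : Type} [Field K] [NumberField K] {ℓ : ℕ} [Fact ℓ.Prime] {n m : ℕ}
  (V : GF K →* GL (Fin n) ℚ_[ℓ]) (W : GF K →* GL (Fin m) ℚ_[ℓ]) (u : ℤ) (φ : GF K → ℚ)
  (U : Subgroup (GF K)) (hU : ∀ x ∈ U, ∀ y, φ (x * y) = φ y)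
  (hφ : ∀ y : GF K, cyc K ℓ ℚ_[ℓ] y ^ u * ((mt V y).trace - (mt W y).trace) = (φ y : ℚ_[ℓ]))
  {P : Ideal (OO K)} (hP : P.IsMaximal) (hℓP : (ℓ : OO K) ∉ P)

include hφ in
theorem tr_eq (y : GF K) : (mt V y).trace =
    (mt W y).trace + (cyc K ℓ ℚ_[ℓ] y ^ u)⁻¹ * (φ y : ℚ_[ℓ]) := by
  rw [← hφ y, ← mul_assoc, inv_mul_cancel₀ (zpow_ne_zero _ (c_ne _ y)), one_mul]
  ring

include hU in
theorem phi_U {y : GF K} (hy : y ∈ U) : φ y = φ 1 := by
  rw [← mul_one y, hU y hy 1]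

include hφ hP hℓP in
theorem tr_frob {Q : ℕ} {g : GF K} (hg : FrobAt Q P g) : (mt V g⁻¹).trace =
    (mt W g⁻¹).trace + ((Q : ℚ) ^ u * φ g⁻¹ : ℚ) := by
  rw [tr_eq V W u φ hφ, c_inv, cyc_sigma (ℓ := ℓ) hP hg hℓP, _root_.inv_zpow, inv_inv]
  push_cast
  rfl

omit [NumberField K] in
theorem frob_one : FrobAt 1 P (1 : GF K) := by
  intro x
  rw [one_smul, pow_one, sub_self]
  exact P.zero_mem

include hU hφ hP hℓP in
theorem unip_of {H : Subgroup (GF K)}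
    (hH : ∀ τ ∈ H, InInertia P τ → IsNilpotent (mt W τ - 1)) {τ : GF K} (hτH : τ ∈ H)
    (hτU : τ ∈ U) (hτ : InInertia P τ) : IsNilpotent (mt V τ - 1) := by
  apply Tr3.nilp_of_trace
  intro j
  have h1 : InInertia P (τ ^ j) := (IG P).pow_mem (show τ ∈ IG P from hτ) j
  have h2 := hH (τ ^ j) (H.pow_mem hτH j) h1
  have h3 : (mt W (τ ^ j)).trace = m := by
    have h4 := (Matrix.isNilpotent_trace_of_isNilpotent h2).eq_zero
    rw [Matrix.trace_sub, Matrix.trace_one, Fintype.card_fin] at h4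
    exact sub_eq_zero.1 h4
  rw [← Tr9.mt_pow, tr_eq V W u φ hφ, cyc_inertia hP hℓP frob_one h1, _root_.one_zpow, inv_one,
    one_mul, phi_U φ U hU (U.pow_mem hτU j), phi_one V W u φ hφ, h3]
  ring

/-- the inverse power of the cyclotomic character -/
noncomputable def eta (ℓ : ℕ) [Fact ℓ.Prime] (u : ℤ) (U : Subgroup (GF K)) : U →* ℚ_[ℓ] where
  toFun y := (cyc K ℓ ℚ_[ℓ] (y : GF K) ^ u)⁻¹
  map_one' := by
    rw [Subgroup.coe_one, map_one, _root_.one_zpow, inv_one]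
  map_mul' a b := by
    rw [Subgroup.coe_mul, map_mul, _root_.mul_zpow, mul_inv]

omit [NumberField K] in
theorem alg_ev (ρ : GF K →* GL (Fin n) ℚ_[ℓ]) (γ : U) (p : ℚ[X]) (x : Fin n → ℚ_[ℓ]) :
    Representation.asAlgebraHom (((act ρ).comp U.subtype : U →* Module.End ℚ_[ℓ] (Fin n → ℚ_[ℓ])))
      (aeval (MonoidAlgebra.of ℚ_[ℓ] U γ) (p.map (Rat.castHom ℚ_[ℓ]))) x =
      ev (mt ρ (γ : GF K)) p *ᵥ x := by
  rw [← Polynomial.aeval_algHom_apply, Representation.asAlgebraHom_of, MonoidHom.comp_apply,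
    Subgroup.subtype_apply, act_apply]
  have h1 := Polynomial.aeval_algHom_apply
    (Matrix.toLinAlgEquiv' : Matrix (Fin n) (Fin n) ℚ_[ℓ] ≃ₐ[ℚ_[ℓ]]
      ((Fin n → ℚ_[ℓ]) →ₗ[ℚ_[ℓ]] (Fin n → ℚ_[ℓ]))).toAlgHom (mt ρ (γ : GF K))
      (p.map (Rat.castHom ℚ_[ℓ]))
  have h2 := LinearMap.congr_fun h1 x
  refine h2.trans ?_
  exact Matrix.toLin'_apply _ _

omit [NumberField K] in
theorem alg_pow (ρ : GF K →* GL (Fin n) ℚ_[ℓ]) (τ : U) (i : ℕ) (x : Fin n → ℚ_[ℓ]) :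
    Representation.asAlgebraHom (((act ρ).comp U.subtype : U →* Module.End ℚ_[ℓ] (Fin n → ℚ_[ℓ])))
      ((MonoidAlgebra.of ℚ_[ℓ] U τ - 1) ^ i) x = (mt ρ (τ : GF K) - 1) ^ i *ᵥ x := by
  rw [map_pow, map_sub, map_one, Representation.asAlgebraHom_of, MonoidHom.comp_apply,
    Subgroup.subtype_apply, act_apply, ← map_one Matrix.toLinAlgEquiv', ← map_sub, ← map_pow]
  exact Matrix.toLin'_apply _ _

include hU hφ in
/-- injectivity is inherited -/
theorem inj_one (hBN : P_BN) (hCL : P_CL) (hUn : U.Normal) (hss : SS W) {γ τ : GF K}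
    (hγ : γ ∈ U) (hτ : τ ∈ U) (p : ℚ[X]) (i : ℕ)
    (hW : ∀ x, ev (mt W γ) p *ᵥ x = 0 → (mt W τ - 1) ^ i *ᵥ x = 0 → x = 0)
    (hp : φ 1 ≠ 0 → aeval ((cyc K ℓ ℚ_[ℓ] γ ^ u)⁻¹) (p.map (Rat.castHom ℚ_[ℓ])) ≠ 0)
    (x : Fin n → ℚ_[ℓ]) (hx : ev (mt V γ) p *ᵥ x = 0) (hx' : (mt V τ - 1) ^ i *ᵥ x = 0) :
    x = 0 := by
  set ρV : Representation ℚ_[ℓ] U (Fin n → ℚ_[ℓ]) := (act V).comp U.subtype with hρV
  set ρW : Representation ℚ_[ℓ] U (Fin m → ℚ_[ℓ]) := (act W).comp U.subtype with hρW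
  have h1 := phi_one V W u φ hφ
  have htr : ∀ y : U, LinearMap.trace ℚ_[ℓ] _ (ρV y) = LinearMap.trace ℚ_[ℓ] _ (ρW y) +
      (n - m) * eta ℓ u U y := by
    intro y
    have h2 := tr_eq V W u φ hφ (y : GF K)
    rw [phi_U φ U hU y.2, h1, mul_comm] at h2
    have h3 : LinearMap.trace ℚ_[ℓ] _ (ρV y) = (mt V (y : GF K)).trace := trace_act V y
    have h4 : LinearMap.trace ℚ_[ℓ] _ (ρW y) = (mt W (y : GF K)).trace := trace_act W y
    rw [h3, h4]
    exact h2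
  have hssW : ∀ W' : Submodule ℚ_[ℓ] (Fin m → ℚ_[ℓ]), (∀ g, ∀ x ∈ W', ρW g x ∈ W') →
      ∃ W'' : Submodule ℚ_[ℓ] (Fin m → ℚ_[ℓ]), (∀ g, ∀ x ∈ W'', ρW g x ∈ W'') ∧
        IsCompl W' W'' := by
    intro W' hW'
    obtain ⟨W'', h2, h3⟩ := hCL ℚ_[ℓ] (GF K) U (Fin m → ℚ_[ℓ]) (act W) hss.act W'
      (fun g hg x hx => hW' ⟨g, hg⟩ x hx)
    exact ⟨W'', fun g x hx => h2 g g.2 x hx, h3⟩
  set L : Set (MonoidAlgebra ℚ_[ℓ] U) :=
    {aeval (MonoidAlgebra.of ℚ_[ℓ] U ⟨γ, hγ⟩) (p.map (Rat.castHom ℚ_[ℓ])),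
      (MonoidAlgebra.of ℚ_[ℓ] U ⟨τ, hτ⟩ - 1) ^ i} with hL
  have hWL : ∀ x, (∀ a ∈ L, ρW.asAlgebraHom a x = 0) → x = 0 := by
    intro x hx
    refine hW x ?_ ?_
    · have h2 := hx _ (Set.mem_insert _ _)
      rw [alg_ev U W ⟨γ, hγ⟩ p x] at h2
      exact h2
    · have h2 := hx _ (Set.mem_insert_of_mem _ rfl)
      rw [alg_pow U W ⟨τ, hτ⟩ i x] at h2
      exact h2
  have hxL : ∀ a ∈ L, ρV.asAlgebraHom a x = 0 := by
    intro a ha
    rcases ha with rfl | rfl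
    · rw [alg_ev U V ⟨γ, hγ⟩ p x]
      exact hx
    · rw [alg_pow U V ⟨τ, hτ⟩ i x]
      exact hx'
  by_cases hc : φ 1 = 0
  · refine inj_of (r₁ := 0) (r₂ := 0) hBN ρV ρW (eta ℓ u U) ?_ hssW L hWL (Or.inl rfl) x hxL
    intro y
    rw [hc, Rat.cast_zero] at h1
    rw [htr, ← h1, Nat.cast_zero]
    ring
  · refine inj_of (r₁ := m) (r₂ := n) hBN ρV ρW (eta ℓ u U) ?_ hssW L hWL (Or.inr ?_) x hxL
    · intro y
      rw [htr]
      ring
    · refine ⟨_, Set.mem_insert _ _, ?_⟩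
      rw [← Polynomial.aeval_algHom_apply, MonoidAlgebra.lift_of]
      exact hp hc

end one

section main

variable {K : Type} [Field K] [NumberField K]

/-- **Purity is transferred.** -/
theorem pure_of (hBN : P_BN) (hCL : P_CL) {n m : ℕ}
    (V : ∀ (ℓ : ℕ) [Fact ℓ.Prime], GF K →* GL (Fin n) ℚ_[ℓ])
    (W : ∀ (ℓ : ℕ) [Fact ℓ.Prime], GF K →* GL (Fin m) ℚ_[ℓ]) (u : ℤ)
    (φ : GF K → ℚ) (U : Subgroup (GF K)) (hUn : U.Normal) (hUo : IsOpen (U : Set (GF K)))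
    (hU : ∀ x ∈ U, ∀ y, φ (x * y) = φ y)
    (hφ : ∀ (ℓ : ℕ) [Fact ℓ.Prime] (y : GF K),
      cyc K ℓ ℚ_[ℓ] y ^ u * ((mt (V ℓ) y).trace - (mt (W ℓ) y).trace) = (φ y : ℚ_[ℓ]))
    {w : ℤ} (hw : w = 2 * u ∨ ∀ y, φ y = 0) (hss : ∀ (ℓ : ℕ) [Fact ℓ.Prime], SS (W ℓ))
    {P : Ideal (OO K)} (hP : P.IsMaximal) {q : ℕ} (hq : 2 ≤ q) (hpu : PU W w q P) :
    PU V w q P := by
  classical
  obtain ⟨hun, htr, hwm⟩ := hpu
  refine ⟨?_, ?_, ?_⟩
  · intro ℓ _ hℓ
    obtain ⟨H, hHo, hH⟩ := hun ℓ hℓ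
    refine ⟨H ⊓ U, hHo.inter hUo, fun τ hτ hτI => ?_⟩
    exact unip_of (V ℓ) (W ℓ) u φ U hU (hφ ℓ) hP hℓ hH hτ.1 hτ.2 hτI
  · intro j hj g hg
    obtain ⟨t, ht⟩ := htr j hj g hg
    refine ⟨t + ((q ^ j : ℕ) : ℚ) ^ u * φ g⁻¹, fun ℓ _ hℓ => ?_⟩
    rw [tr_frob (V ℓ) (W ℓ) u φ (hφ ℓ) hP hℓ hg, ht ℓ hℓ]
    push_cast
    ring
  · intro j hj g hg
    set Q : ℕ := q ^ j with hQdef
    have hQ : 2 ≤ Q := hq.trans (Nat.le_self_pow (by omega) q)
    have hfin : Finite (GF K ⧸ U) := Subgroup.quotient_finite_of_isOpen _ hUo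
    have hfi : U.FiniteIndex := Subgroup.finiteIndex_of_finite_quotient
    set a : ℕ := U.index with ha
    have ha0 : a ≠ 0 := hfi.index_ne_zero
    have hgU : g ^ a ∈ U := Subgroup.pow_index_mem U g
    have hga : FrobAt (q ^ (j * a)) P (g ^ a) := by
      rw [pow_mul]
      exact frob_pow hg a
    have hja : 1 ≤ j * a := Nat.mul_pos hj (Nat.pos_of_ne_zero ha0)
    obtain ⟨s, h, hh, hWd⟩ := hwm (j * a) hja (g ^ a) hga
    set B : ℕ := q ^ (j * a) with hB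
    have hB2 : 2 ≤ B := hq.trans (Nat.le_self_pow (by omega) q)
    have hB0 : (0 : ℝ) < (B : ℝ) := by
      have : 0 < B := by omega
      exact_mod_cast this
    have hBQ : B = Q ^ a := by rw [hB, hQdef, pow_mul]
    set D : ℚ := (B : ℚ) ^ u with hD
    set c : ℚ := φ 1 with hc
    have hcw : c ≠ 0 → w = 2 * u := by
      intro h1
      rcases hw with hw | hw
      · exact hw
      · exact absurd (hw 1) h1
    have hDn : c ≠ 0 → ‖(D : ℂ)‖ ^ 2 = (B : ℝ) ^ w := by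
      intro h1
      rw [hcw h1, hD, Rat.cast_zpow, Rat.cast_natCast, norm_zpow, Complex.norm_natCast,
        ← zpow_natCast ((B : ℝ) ^ u) 2, ← _root_.zpow_mul, mul_comm u]
      rfl
    have hG := root_GG hh hDn
    have htrp : ∀ (ℓ : ℕ) [Fact ℓ.Prime], (ℓ : OO K) ∉ P → ∀ i : ℕ,
        (mt (V ℓ) (g ^ a)⁻¹ ^ i).trace = (mt (W ℓ) (g ^ a)⁻¹ ^ i).trace +
          c * (D : ℚ_[ℓ]) ^ i := by
      intro ℓ _ hℓ i
      rw [← Tr9.mt_pow, ← Tr9.mt_pow, inv_pow]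
      have h1 : FrobAt (B ^ i) P ((g ^ a) ^ i) := frob_pow hga i
      rw [tr_frob (V ℓ) (W ℓ) u φ (hφ ℓ) hP hℓ h1,
        phi_U φ U hU (U.inv_mem (U.pow_mem hgU i)), ← hc, hD]
      have h2 : (((B : ℚ_[ℓ]) ^ i) ^ u) = ((B : ℚ_[ℓ]) ^ u) ^ i := by
        rw [← zpow_natCast, ← zpow_natCast, _root_.zpow_comm]
      push_cast
      rw [h2, mul_comm]
    refine ⟨insert w s, fun i => (GG h w c D i ^ (n + 1)).comp (X ^ a), ?_, ?_⟩
    · intro i z hz
      rw [Polynomial.aeval_comp, map_pow, map_pow, aeval_X] at hz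
      have h1 := hG i (z ^ a) (pow_eq_zero_iff (Nat.succ_ne_zero n) |>.1 hz)
      have h2 : (‖z‖ ^ 2) ^ a = ((Q : ℝ) ^ i) ^ a := by
        rw [← pow_mul, mul_comm 2 a, pow_mul, ← norm_pow, h1, hBQ]
        push_cast
        rw [← zpow_natCast, ← zpow_natCast, _root_.zpow_comm]
      exact (pow_left_inj₀ (by positivity) (by positivity) ha0).1 h2
    · intro ℓ _ hℓ
      obtain ⟨hann, hdim, hinj⟩ := hWd ℓ hℓ
      have hpow : mt (V ℓ) g⁻¹ ^ a = mt (V ℓ) (g ^ a)⁻¹ := by rw [← Tr9.mt_pow, inv_pow]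
      obtain ⟨h1, h2⟩ := dim_eq hB2 (htrp ℓ hℓ) hh hDn hann (r := n + 1) (by omega)
        (Nat.succ_ne_zero n)
      have hsgn : ∀ i : ℕ, i ≠ 0 → w + (i : ℤ) ≠ w ∧ w - (i : ℤ) ≠ w := by
        intro i hi
        constructor <;> omega
      refine ⟨?_, ?_, ?_⟩
      · have h3 : (∏ i ∈ insert w s, (GG h w c D i ^ (n + 1)).comp (X ^ a)) =
            ((∏ i ∈ insert w s, GG h w c D i) ^ (n + 1)).comp (X ^ a) := by
          rw [← Finset.prod_pow, Polynomial.prod_comp]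
        rw [h3, ev_comp, hpow]
        exact h1
      · intro i
        rw [ev_comp, ev_comp, hpow]
        by_cases hi : i = 0
        · subst hi
          rw [Nat.cast_zero, add_zero, sub_zero]
        · rw [h2 _ (hsgn i hi).1, h2 _ (hsgn i hi).2]
          exact hdim i
      · intro H hH i
        by_cases hi : i = 0
        · subst hi
          refine ⟨1, H.one_mem, (IG P).one_mem, fun x _ hx => ?_⟩
          rwa [pow_zero, Matrix.one_mulVec] at hx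
        · obtain ⟨τ, hτ, hτI, hτx⟩ := hinj (H ⊓ U) (hH.inter hUo) i
          refine ⟨τ, hτ.1, hτI, fun x hx hx' => ?_⟩
          rw [ev_comp, hpow, GG_ne (hsgn i hi).1] at hx
          refine inj_one (V ℓ) (W ℓ) u φ U hU (hφ ℓ) hBN hCL hUn (hss ℓ) (U.inv_mem hgU) hτ.2
            (h (w + i) ^ (n + 1)) i ?_ ?_ x hx hx'
          · intro y hy hy'
            refine hτx y ?_ hy'
            have h3 := coprime_pow hB2 hh (insert (w + (i : ℤ)) s) (w + i) 1 1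
            rw [pow_one, pow_one] at h3
            refine ker_pow h3 ?_ hy
            rw [Finset.mul_prod_erase _ _ (Finset.mem_insert_self _ _)]
            obtain ⟨d, hd⟩ := Finset.prod_dvd_prod_of_subset s (insert (w + (i : ℤ)) s) h
              (Finset.subset_insert _ _)
            rw [hd, map_mul, hann, zero_mul]
          · intro hc0 h3
            have h4 : (cyc K ℓ ℚ_[ℓ] (g ^ a)⁻¹ ^ u)⁻¹ = algebraMap ℚ ℚ_[ℓ] D := by
              rw [c_inv, cyc_sigma (ℓ := ℓ) hP hga hℓ, _root_.inv_zpow, inv_inv, hD]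
              simp
            have h5 : aeval D (h (w + i) ^ (n + 1)) = 0 := by
              have h6 : aeval (algebraMap ℚ ℚ_[ℓ] D)
                  ((h (w + i) ^ (n + 1)).map (Rat.castHom ℚ_[ℓ])) =
                  algebraMap ℚ ℚ_[ℓ] (aeval D (h (w + i) ^ (n + 1))) := by
                rw [Subsingleton.elim (Rat.castHom ℚ_[ℓ]) (algebraMap ℚ ℚ_[ℓ]),
                  Polynomial.aeval_map_algebraMap, Polynomial.aeval_algebraMap_apply]
              rw [h4, h6] at h3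
              exact (map_eq_zero (algebraMap ℚ ℚ_[ℓ])).1 h3
            rw [map_pow] at h5
            have h7 := pow_eq_zero_iff (Nat.succ_ne_zero n) |>.1 h5
            have h8 : aeval ((D : ℚ) : ℂ) (h (w + i)) = 0 := by
              have h9 : aeval (algebraMap ℚ ℂ D) (h (w + i)) = algebraMap ℚ ℂ (aeval D (h (w + i))) :=
                Polynomial.aeval_algebraMap_apply ℂ D _
              rw [h7, map_zero] at h9
              exact h9
            have h9 := hh _ _ h8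
            rw [hDn hc0] at h9
            have hB1 : (B : ℝ) ≠ 1 := by
              intro h10
              have : B = 1 := by exact_mod_cast h10
              omega
            have h10 := zpow_right_injective₀ hB0 hB1 h9
            exact (hsgn i hi).1 h10.symm

end main

end Pool.Agent.W2helper44.PT
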