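import Pool.Agent.W2helper44.PT.Base

/-!
# Project PT: linear algebra for the comparison
-/

set_option autoImplicit false
set_option maxHeartbeats 400000

namespace Pool.Agent.W2helper44.PT

open Filter Topology Polynomial Matrix Module

section lin

variable {k : Type} [Field k] [CharZero k] {n m : ℕ}

theorem nil_of_trace {M : Matrix (Fin n) (Fin n) k} (h : ∀ j : ℕ, (M ^ (j + 1)).trace = 0) :
    IsNilpotent M := by
  have h1 : ∀ j r : ℕ, (M ^ (r + 1) * (1 + M) ^ j).trace = 0 := by
    intro j
    induction j with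
    | zero =>
      intro r
      rw [pow_zero, mul_one, h]
    | succ j ih =>
      intro r
      have h2 : M ^ (r + 1) * (1 + M) ^ (j + 1) =
          M ^ (r + 1) * (1 + M) ^ j + M ^ (r + 1 + 1) * (1 + M) ^ j := by
        rw [pow_succ' (1 + M) j, pow_succ M (r + 1)]
        noncomm_ring
      rw [h2, Matrix.trace_add, ih, ih, add_zero]
  have h3 : ∀ j : ℕ, ((1 + M) ^ j).trace = n := by
    intro j
    induction j with
    | zero => rw [pow_zero, Matrix.trace_one, Fintype.card_fin]
    | succ j ih =>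
      have h2 : (1 + M) ^ (j + 1) = (1 + M) ^ j + M ^ (0 + 1) * (1 + M) ^ j := by
        rw [pow_succ', add_mul, one_mul, zero_add, pow_one]
      rw [h2, Matrix.trace_add, h1, ih, add_zero]
  have h4 := Pool.Agent.R401.Tr3.nilp_of_trace h3
  rwa [add_sub_cancel_left] at h4

theorem pow_eq_zero_of_nil {M : Matrix (Fin n) (Fin n) k} (h : IsNilpotent M) {r : ℕ}
    (hr : n ≤ r) : M ^ r = 0 := by
  have h1 := Matrix.isNilpotent_charpoly_sub_pow_of_isNilpotent h
  have h2 : M.charpoly = X ^ n := by
    have h3 := h1.eq_zero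
    rw [Fintype.card_fin] at h3
    exact sub_eq_zero.1 h3
  have h3 := Matrix.aeval_self_charpoly M
  rw [h2, map_pow, aeval_X] at h3
  exact pow_eq_zero_of_le hr h3

/-- the value at a rational number -/
theorem trace_ev_all {γV : Matrix (Fin n) (Fin n) k} {γW : Matrix (Fin m) (Fin m) k} {c D : ℚ}
    (h : ∀ i : ℕ, (γV ^ i).trace = (γW ^ i).trace + c * (D : k) ^ i) (p : ℚ[X]) :
    (ev γV p).trace = (ev γW p).trace + (c * p.eval D : ℚ) := by
  rw [ev_eq_sum, ev_eq_sum, Polynomial.eval_eq_sum, Polynomial.sum_def, Polynomial.sum_def,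
    Polynomial.sum_def, Matrix.trace_sum, Matrix.trace_sum, Finset.mul_sum, Rat.cast_sum,
    ← Finset.sum_add_distrib]
  refine Finset.sum_congr rfl fun i _ => ?_
  rw [Matrix.trace_smul, Matrix.trace_smul, h, smul_eq_mul, smul_eq_mul]
  push_cast
  ring

theorem ev_mulVec_comm (γ : Matrix (Fin n) (Fin n) k) (p q : ℚ[X]) (x : Fin n → k) :
    ev γ p *ᵥ (ev γ q *ᵥ x) = ev γ (p * q) *ᵥ x := by
  rw [map_mul, Matrix.mulVec_mulVec]

theorem ker_eq {γ : Matrix (Fin n) (Fin n) k} {p : ℚ[X]} (x : Fin n → k) :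
    x ∈ LinearMap.ker (toLin' (ev γ p)) ↔ ev γ p *ᵥ x = 0 := by
  rw [LinearMap.mem_ker, Matrix.toLin'_apply]

/-- the trace of a projector -/
theorem trace_proj {γ : Matrix (Fin n) (Fin n) k} {A R a b : ℚ[X]} (hab : a * A + b * R = 1)
    (h0 : ev γ (A * R) = 0) :
    (ev γ (b * R)).trace = (finrank k (LinearMap.ker (toLin' (ev γ A))) : k) := by
  have hp : LinearMap.IsProj (LinearMap.ker (toLin' (ev γ A))) (toLin' (ev γ (b * R))) := by
    constructor
    · intro x
      rw [ker_eq, Matrix.toLin'_apply, ev_mulVec_comm]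
      have h1 : A * (b * R) = b * (A * R) := by ring
      rw [h1, map_mul, h0, mul_zero, Matrix.zero_mulVec]
    · intro x hx
      rw [ker_eq] at hx
      rw [Matrix.toLin'_apply]
      have h1 : b * R = 1 - a * A := by rw [← hab]; ring
      rw [h1, map_sub, map_one, Matrix.sub_mulVec, Matrix.one_mulVec, ← ev_mulVec_comm, hx,
        Matrix.mulVec_zero, sub_zero]
  rw [← hp.trace, Matrix.trace_toLin'_eq]

/-- the kernel of a power -/
theorem ker_pow {γ : Matrix (Fin n) (Fin n) k} {A R : ℚ[X]} (hAR : IsCoprime A R)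
    (h0 : ev γ (A * R) = 0) {r : ℕ} {x : Fin n → k} (hx : ev γ (A ^ r) *ᵥ x = 0) :
    ev γ A *ᵥ x = 0 := by
  obtain ⟨a, b, hab⟩ := hAR.pow_left (m := r)
  have h1 : A = A * a * A ^ r + b * (A * R) := by
    calc A = A * (a * A ^ r + b * R) := by rw [hab, mul_one]
      _ = _ := by ring
  rw [h1, map_add, map_mul _ b, h0, mul_zero, add_zero, ← ev_mulVec_comm, hx, Matrix.mulVec_zero]

theorem ev_comp (γ : Matrix (Fin n) (Fin n) k) (p : ℚ[X]) (a : ℕ) :
    ev γ (p.comp (X ^ a)) = ev (γ ^ a) p := by
  rw [Polynomial.comp, Polynomial.eval₂_eq_sum, Polynomial.sum_def, map_sum, ev_eq_sum,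
    Polynomial.sum_def]
  refine Finset.sum_congr rfl fun i _ => ?_
  rw [map_mul, map_pow, map_pow, ev_X, ev_C, smul_mul_assoc, one_mul]

end lin

section rep

variable {k : Type} [Field k] [CharZero k] {U : Type} [Group U]

/-- scalar representations -/
noncomputable def sc (η : U →* k) (r : ℕ) : Representation k U (Fin r → k) where
  toFun y := η y • LinearMap.id
  map_one' := by
    rw [map_one, one_smul]
    rfl
  map_mul' a b := by
    rw [map_mul]
    ext i j
    simp
    ring

theorem ss_of {M : Type} [AddCommGroup M] [Module k M] (ρ : Representation k U M)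
    (h : ∀ W : Submodule k M, (∀ g, ∀ x ∈ W, ρ g x ∈ W) →
      ∃ W' : Submodule k M, (∀ g, ∀ x ∈ W', ρ g x ∈ W') ∧ IsCompl W W') :
    IsSemisimpleModule (MonoidAlgebra k U) ρ.asModule := by
  rw [← Representation.isSemisimpleRepresentation_iff_isSemisimpleModule_asModule]
  refine ⟨fun σ => ?_⟩
  obtain ⟨W', hW', hc⟩ := h σ.toSubmodule (fun g x hx => σ.apply_mem_toSubmodule g hx)
  refine ⟨⟨W', fun g x hx => hW' g x hx⟩, ?_⟩
  have h1 := hc
  rw [isCompl_iff, disjoint_iff, codisjoint_iff] at h1 ⊢
  constructor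
  · apply Subrepresentation.toSubmodule_injective
    rw [Subrepresentation.toSubmodule_inf]
    exact h1.1
  · apply Subrepresentation.toSubmodule_injective
    rw [Subrepresentation.toSubmodule_sup]
    exact h1.2

theorem sc_ss (η : U →* k) (r : ℕ) :
    IsSemisimpleModule (MonoidAlgebra k U) (sc η r).asModule := by
  apply ss_of
  intro W _
  obtain ⟨W', hW'⟩ := Submodule.exists_isCompl W
  refine ⟨W', fun g x hx => ?_, hW'⟩
  exact W'.smul_mem (η g) hx

theorem prod_ss {A M N : Type} [Ring A] [AddCommGroup M] [Module A M] [AddCommGroup N] [Module A N]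
    (hM : IsSemisimpleModule A M) (hN : IsSemisimpleModule A N) : IsSemisimpleModule A (M × N) := by
  have h1 : IsSemisimpleModule A (LinearMap.range (LinearMap.inl A M N)) := .range _
  have h2 : IsSemisimpleModule A (LinearMap.range (LinearMap.inr A M N)) := .range _
  have h3 := IsSemisimpleModule.sup h1 h2
  have h4 : LinearMap.range (LinearMap.inl A M N) ⊔ LinearMap.range (LinearMap.inr A M N) = ⊤ :=
    LinearMap.sup_range_inl_inr
  rw [h4] at h3
  exact IsSemisimpleModule.congr Submodule.topEquiv.symm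

theorem trace_alg {n m r₁ r₂ : ℕ} (ρV : Representation k U (Fin n → k))
    (ρW : Representation k U (Fin m → k)) (η : U →* k)
    (htr : ∀ y, LinearMap.trace k _ (ρV y) + r₁ * η y = LinearMap.trace k _ (ρW y) + r₂ * η y)
    (a : MonoidAlgebra k U) :
    LinearMap.trace k (ρV.asModule × (sc η r₁).asModule)
      (Algebra.lsmul k k (ρV.asModule × (sc η r₁).asModule) a) =
    LinearMap.trace k (ρW.asModule × (sc η r₂).asModule)
      (Algebra.lsmul k k (ρW.asModule × (sc η r₂).asModule) a) := by
  induction a using MonoidAlgebra.induction_linear with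
  | zero => rw [map_zero, map_zero, map_zero, map_zero]
  | add a b ha hb => rw [map_add, map_add, map_add, map_add, ha, hb]
  | single y t =>
    have h1 : ∀ {d r : ℕ} (ρ : Representation k U (Fin d → k)),
        LinearMap.trace k (ρ.asModule × (sc η r).asModule)
          (Algebra.lsmul k k (ρ.asModule × (sc η r).asModule) (MonoidAlgebra.single y t)) =
        t * (LinearMap.trace k _ (ρ y) + r * η y) := by
      intro d r ρ
      have h2 : (Algebra.lsmul k k (ρ.asModule × (sc η r).asModule) (MonoidAlgebra.single y t) :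
          (ρ.asModule × (sc η r).asModule) →ₗ[k] (ρ.asModule × (sc η r).asModule)) =
          LinearMap.prodMap (t • (ρ y : ρ.asModule →ₗ[k] ρ.asModule))
            (t • ((sc η r) y : (sc η r).asModule →ₗ[k] (sc η r).asModule)) := by
        refine LinearMap.ext fun x => ?_
        change (MonoidAlgebra.single y t) • x = _
        refine Prod.ext ?_ ?_
        · exact Representation.single_smul _ t y x.1
        · exact Representation.single_smul _ t y x.2
      have h4 := LinearMap.trace_id k (Fin r → k)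
      rw [finrank_fin_fun] at h4
      have h5 : LinearMap.trace k ((Fin d → k) × (Fin r → k)) (LinearMap.prodMap (t • ρ y)
          (t • (η y • (LinearMap.id : (Fin r → k) →ₗ[k] (Fin r → k))))) =
          t * (LinearMap.trace k _ (ρ y) + r * η y) := by
        rw [LinearMap.trace_prodMap', map_smul, map_smul, map_smul, h4, smul_eq_mul, smul_eq_mul,
          smul_eq_mul]
        ring
      rw [h2]
      exact h5
    rw [h1, h1, htr]

theorem sc_alg (η : U →* k) (r : ℕ) (a : MonoidAlgebra k U) :
    (sc η r).asAlgebraHom a = (MonoidAlgebra.lift k k U η a) • LinearMap.id := by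
  induction a using MonoidAlgebra.induction_linear with
  | zero => rw [map_zero, map_zero, zero_smul]
  | add a b ha hb => rw [map_add, map_add, ha, hb, add_smul]
  | single y t =>
    rw [Representation.asAlgebraHom_single, MonoidAlgebra.lift_single, smul_assoc]
    rfl

/-- **injectivity is inherited** -/
theorem inj_of (hBN : P_BN) {n m r₁ r₂ : ℕ} (ρV : Representation k U (Fin n → k))
    (ρW : Representation k U (Fin m → k)) (η : U →* k)
    (htr : ∀ y, LinearMap.trace k _ (ρV y) + r₁ * η y = LinearMap.trace k _ (ρW y) + r₂ * η y)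
    (hss : ∀ W : Submodule k (Fin m → k), (∀ g, ∀ x ∈ W, ρW g x ∈ W) →
      ∃ W' : Submodule k (Fin m → k), (∀ g, ∀ x ∈ W', ρW g x ∈ W') ∧ IsCompl W W')
    (L : Set (MonoidAlgebra k U)) (hW : ∀ x, (∀ a ∈ L, ρW.asAlgebraHom a x = 0) → x = 0)
    (hη : r₂ = 0 ∨ ∃ a ∈ L, MonoidAlgebra.lift k k U η a ≠ 0) (x : Fin n → k)
    (hx : ∀ a ∈ L, ρV.asAlgebraHom a x = 0) : x = 0 := by
  have h1 := hBN k (MonoidAlgebra k U) (ρV.asModule × (sc η r₁).asModule)
    (ρW.asModule × (sc η r₂).asModule) (prod_ss (ss_of ρW hss) (sc_ss η r₂))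
    (trace_alg ρV ρW η htr) L
    (by
      intro y hy
      have h2 : ∀ a ∈ L, ρW.asAlgebraHom a y.1 = 0 := fun a ha => congrArg Prod.fst (hy a ha)
      have h3 : ∀ a ∈ L, (sc η r₂).asAlgebraHom a y.2 = 0 := fun a ha =>
        congrArg Prod.snd (hy a ha)
      refine Prod.ext (hW _ h2) ?_
      rcases hη with hη | ⟨a, ha, hη⟩
      · subst hη
        exact Subsingleton.elim (α := Fin 0 → k) _ _
      · have h4 := h3 a ha
        rw [sc_alg] at h4
        have h5 : (MonoidAlgebra.lift k k U η a) • (y.2 : Fin r₂ → k) = 0 := h4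
        exact (smul_eq_zero.1 h5).resolve_left hη)
    (x, 0) (by
      intro a ha
      refine Prod.ext (hx a ha) ?_
      exact map_zero ((sc η r₁).asAlgebraHom a))
  exact congrArg Prod.fst h1

end rep

end Pool.Agent.W2helper44.PT
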